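import Pool.Agent.Lib.MP_02a0e4_an.Signs

/-!
The estimate of one block `ℓ_p^N` with `p` close to `1`.
-/

open Filter
open scoped Topology NNReal ENNReal Real

namespace Pool.Agent.Lib.MP_02a0e4_an

variable {𝕜 : Type*} [RCLike 𝕜]

section Block

variable {H : Type*} [NormedAddCommGroup H] [InnerProductSpace 𝕜 H]

lemma pilp_expand {p : ℝ≥0∞} [Fact (1 ≤ p)] {N : ℕ} (x : PiLp p (fun _ : Fin N => 𝕜)) :
    x = ∑ ω, x ω • (WithLp.toLp p (Pi.single ω (1:𝕜)) : PiLp p (fun _ : Fin N => 𝕜)) := by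
  ext i
  simp [Pi.single_apply]

/-- the phase making `phase * z = ‖z‖` -/
noncomputable def phase (z : 𝕜) : 𝕜 := if z = 0 then 0 else (‖z‖ : 𝕜) / z

lemma phase_mul (z : 𝕜) : phase z * z = (‖z‖ : 𝕜) := by
  unfold phase
  split_ifs with h
  · simp [h]
  · field_simp

lemma norm_phase_le (z : 𝕜) : ‖phase z‖ ≤ 1 := by
  unfold phase
  split_ifs with h
  · simp
  · rw [norm_div, RCLike.norm_ofReal, abs_of_nonneg (norm_nonneg z), div_self (by simpa using h)]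

theorem block_bound {p : ℝ≥0∞} [Fact (1 ≤ p)] (hp : p ≠ ∞) {N d : ℕ}
    (net : Finset H) (hnet : ∀ x ∈ net, ‖x‖ ≤ 1) (hnet2 : ∀ β : H, ∃ x ∈ net, ‖β‖ ≤ 2 * ‖inner 𝕜 x β‖)
    (hK : (net.card : ℝ)^(p.toReal - 1) ≤ 2^p.toReal)
    (T : PiLp p (fun _ : Fin N => 𝕜) →L[𝕜] H) (f : Fin d → H) (hf : Orthonormal 𝕜 f)
    (g : Fin d → PiLp p (fun _ : Fin N => 𝕜)) :
    ‖∑ i, inner 𝕜 (f i) (T (g i))‖ ≤
      4 * ‖T‖ * (∑ ω, (Real.sqrt (∑ i, ‖g i ω‖^2))^p.toReal)^(1 / p.toReal) := by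
  classical
  have hp1 : 1 ≤ p.toReal := by
    have h1 : (1 : ℝ≥0∞) ≤ p := Fact.out
    have := ENNReal.toReal_mono hp h1
    simpa using this
  have hp0 : 0 < p.toReal := by linarith
  set e : Fin N → PiLp p (fun _ : Fin N => 𝕜) := fun ω => WithLp.toLp p (Pi.single ω (1:𝕜))
  set β : Fin N → H := fun ω => T (e ω)
  set α : Fin N → ℝ := fun ω => Real.sqrt (∑ i, ‖g i ω‖^2)
  have hα0 : ∀ ω, 0 ≤ α ω := fun ω => Real.sqrt_nonneg _
  have hT : ∀ x : PiLp p (fun _ : Fin N => 𝕜), T x = ∑ ω, x ω • β ω := by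
    intro x
    conv_lhs => rw [pilp_expand x]
    rw [map_sum]
    exact Finset.sum_congr rfl fun ω _ => map_smul _ _ _
  -- first bound
  have h1 : ‖∑ i, inner 𝕜 (f i) (T (g i))‖ ≤ ∑ ω, α ω * ‖β ω‖ := by
    have e1 : ∑ i, inner 𝕜 (f i) (T (g i)) = ∑ ω, ∑ i, g i ω * inner 𝕜 (f i) (β ω) := by
      rw [Finset.sum_comm]
      refine Finset.sum_congr rfl fun i _ => ?_
      rw [hT, inner_sum]
      exact Finset.sum_congr rfl fun ω _ => inner_smul_right _ _ _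
    rw [e1]
    refine (norm_sum_le _ _).trans (Finset.sum_le_sum fun ω _ => ?_)
    calc ‖∑ i, g i ω * inner 𝕜 (f i) (β ω)‖ ≤ ∑ i, ‖g i ω‖ * ‖inner 𝕜 (f i) (β ω)‖ := by
          refine (norm_sum_le _ _).trans (Finset.sum_le_sum fun i _ => (norm_mul _ _).le)
      _ ≤ Real.sqrt (∑ i, ‖g i ω‖^2) * Real.sqrt (∑ i, ‖inner 𝕜 (f i) (β ω)‖^2) :=
          Real.sum_mul_le_sqrt_mul_sqrt _ _ _
      _ ≤ α ω * ‖β ω‖ := by
          refine mul_le_mul_of_nonneg_left ?_ (hα0 ω)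
          apply Real.sqrt_le_iff.2
          refine ⟨norm_nonneg _, ?_⟩
          exact hf.sum_inner_products_le (β ω)
  choose x hxnet hx using hnet2
  -- grouping according to x (β ω)
  set s : H → ℝ := fun y => ∑ ω, if x (β ω) = y then (α ω)^p.toReal else 0
  have hs0 : ∀ y, 0 ≤ s y := fun y => Finset.sum_nonneg fun ω _ => by
    split_ifs
    · exact Real.rpow_nonneg (hα0 ω) _
    · exact le_rfl
  have h2 : ∀ y ∈ net, ∑ ω, (if x (β ω) = y then α ω * ‖inner 𝕜 y (β ω)‖ else 0) ≤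
      ‖T‖ * (s y)^(1 / p.toReal) := by
    intro y hy
    set v : PiLp p (fun _ : Fin N => 𝕜) := WithLp.toLp p (fun ω =>
      if x (β ω) = y then ((α ω : ℝ) : 𝕜) * phase (inner 𝕜 y (β ω)) else 0)
    have hv1 : ‖v‖ ≤ (s y)^(1 / p.toReal) := by
      rw [PiLp.norm_eq_sum hp0]
      refine Real.rpow_le_rpow (Finset.sum_nonneg fun i _ => by positivity) ?_ (by positivity)
      refine Finset.sum_le_sum fun ω _ => ?_
      simp only [v]
      split_ifs with h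
      · refine Real.rpow_le_rpow (norm_nonneg _) ?_ hp0.le
        rw [norm_mul, RCLike.norm_ofReal, abs_of_nonneg (hα0 ω)]
        exact mul_le_of_le_one_right (hα0 ω) (norm_phase_le _)
      · rw [norm_zero, Real.zero_rpow hp0.ne']
    have hv2 : inner 𝕜 y (T v) =
        ((∑ ω, (if x (β ω) = y then α ω * ‖inner 𝕜 y (β ω)‖ else 0) : ℝ) : 𝕜) := by
      rw [hT, inner_sum, RCLike.ofReal_sum]
      refine Finset.sum_congr rfl fun ω _ => ?_
      rw [inner_smul_right]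
      simp only [v]
      split_ifs with h
      · rw [mul_assoc, phase_mul, RCLike.ofReal_mul]
      · simp
    have hnn : 0 ≤ ∑ ω, (if x (β ω) = y then α ω * ‖inner 𝕜 y (β ω)‖ else 0) := by
      refine Finset.sum_nonneg fun ω _ => ?_
      split_ifs
      · exact mul_nonneg (hα0 ω) (norm_nonneg _)
      · exact le_rfl
    have hv3 : ‖inner 𝕜 y (T v)‖ = ∑ ω, (if x (β ω) = y then α ω * ‖inner 𝕜 y (β ω)‖ else 0) := by
      rw [hv2, RCLike.norm_ofReal, abs_of_nonneg hnn]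
    rw [← hv3]
    calc ‖inner 𝕜 y (T v)‖ ≤ ‖y‖ * ‖T v‖ := norm_inner_le_norm _ _
      _ ≤ 1 * (‖T‖ * ‖v‖) := by
          gcongr
          · exact hnet y hy
          · exact T.le_opNorm v
      _ ≤ ‖T‖ * (s y)^(1 / p.toReal) := by
          rw [one_mul]; gcongr
  have h3 : ∑ ω, α ω * ‖β ω‖ ≤ 2 * ∑ y ∈ net, ∑ ω, (if x (β ω) = y then α ω * ‖inner 𝕜 y (β ω)‖ else 0) := by
    rw [Finset.sum_comm, Finset.mul_sum]
    refine Finset.sum_le_sum fun ω _ => ?_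
    rw [Finset.sum_ite_eq, if_pos (hxnet (β ω))]
    have := hx (β ω)
    nlinarith [hα0 ω]
  -- power mean
  have h4 : ∑ y ∈ net, (s y)^(1 / p.toReal) ≤ 2 * (∑ ω, (α ω)^p.toReal)^(1 / p.toReal) := by
    have e1 : ∑ y ∈ net, s y = ∑ ω, (α ω)^p.toReal := by
      rw [Finset.sum_comm]
      refine Finset.sum_congr rfl fun ω _ => ?_
      rw [Finset.sum_ite_eq, if_pos (hxnet (β ω))]
    have h5 := Real.rpow_sum_le_const_mul_sum_rpow net (fun y => (s y)^(1 / p.toReal)) hp1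
    have h6 : ∀ y, |(s y)^(1 / p.toReal)| = (s y)^(1 / p.toReal) := fun y =>
      abs_of_nonneg (Real.rpow_nonneg (hs0 y) _)
    simp only [h6] at h5
    have h7 : ∀ y, ((s y)^(1 / p.toReal))^p.toReal = s y := by
      intro y
      rw [← Real.rpow_mul (hs0 y), one_div_mul_cancel hp0.ne', Real.rpow_one]
    simp only [h7] at h5
    rw [e1] at h5
    have hsum0 : 0 ≤ ∑ ω, (α ω)^p.toReal := Finset.sum_nonneg fun ω _ => Real.rpow_nonneg (hα0 ω) _
    have h8 : (∑ y ∈ net, (s y)^(1 / p.toReal))^p.toReal ≤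
        (2 * (∑ ω, (α ω)^p.toReal)^(1 / p.toReal))^p.toReal := by
      rw [Real.mul_rpow (by norm_num) (Real.rpow_nonneg hsum0 _), ← Real.rpow_mul hsum0,
        one_div_mul_cancel hp0.ne', Real.rpow_one]
      exact h5.trans (mul_le_mul_of_nonneg_right hK hsum0)
    exact (Real.rpow_le_rpow_iff (Finset.sum_nonneg fun y _ => Real.rpow_nonneg (hs0 y) _)
      (by positivity) hp0).1 h8
  calc ‖∑ i, inner 𝕜 (f i) (T (g i))‖ ≤ ∑ ω, α ω * ‖β ω‖ := h1
    _ ≤ 2 * ∑ y ∈ net, ∑ ω, (if x (β ω) = y then α ω * ‖inner 𝕜 y (β ω)‖ else 0) := h3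
    _ ≤ 2 * ∑ y ∈ net, ‖T‖ * (s y)^(1 / p.toReal) := by
        gcongr with y hy
        exact h2 y hy
    _ = 2 * ‖T‖ * ∑ y ∈ net, (s y)^(1 / p.toReal) := by rw [← Finset.mul_sum]; ring
    _ ≤ 2 * ‖T‖ * (2 * (∑ ω, (α ω)^p.toReal)^(1 / p.toReal)) := by gcongr
    _ = _ := by ring

/-- Second estimate: the square function is controlled by the average norm. -/
theorem square_bound {p : ℝ≥0∞} [Fact (1 ≤ p)] (hp : p ≠ ∞) {N : ℕ}
    {V : Type*} [AddCommGroup V] (S : V →+ PiLp p (fun _ : Fin N => 𝕜)) (l : List V) :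
    (∑ ω, (Real.sqrt ((l.map (fun v => ‖S v ω‖^2)).sum))^p.toReal)^(1 / p.toReal) ≤
      2 * avgS l (fun v => ‖S v‖) 0 := by
  have hp1 : 1 ≤ p.toReal := by
    have h1 : (1 : ℝ≥0∞) ≤ p := Fact.out
    have := ENNReal.toReal_mono hp h1
    simpa using this
  have hp0 : 0 < p.toReal := by linarith
  -- real linear map into the real `ℓ_p` space
  let φ : (Fin N → ℝ) →ₗ[ℝ] PiLp p (fun _ : Fin N => ℝ) :=
    { toFun := fun a => WithLp.toLp p a
      map_add' := fun _ _ => rfl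
      map_smul' := fun _ _ => rfl }
  have h1 := norm_avgS_le l φ (fun ω v => ‖S v ω‖) 0
  have h2 : ∀ v : V, ‖φ (fun ω => ‖S v ω‖)‖ = ‖S v‖ := by
    intro v
    rw [PiLp.norm_eq_sum hp0, PiLp.norm_eq_sum hp0]
    have h0 : ∀ ω, (φ (fun ω => ‖S v ω‖)) ω = ‖S v ω‖ := fun _ => rfl
    simp only [h0, norm_norm]
  simp only [h2] at h1
  have h3 : ∀ ω, Real.sqrt ((l.map (fun v => ‖S v ω‖^2)).sum) ≤ 2 * avgS l (fun v => ‖S v ω‖) 0 := by
    intro ω
    let ev : V →+ 𝕜 :=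
      { toFun := fun v => S v ω
        map_zero' := by simp
        map_add' := fun v w => by simp }
    have h4 := khintchine (l.map ev)
    have h5 := avgS_map ev l (fun z : 𝕜 => ‖z‖) 0
    rw [map_zero] at h5
    rw [h5] at h4
    rw [List.map_map] at h4
    exact h4
  have h6 : (∑ ω, (Real.sqrt ((l.map (fun v => ‖S v ω‖^2)).sum))^p.toReal)^(1 / p.toReal) ≤
      (∑ ω, (2 * avgS l (fun v => ‖S v ω‖) 0)^p.toReal)^(1 / p.toReal) := by
    refine Real.rpow_le_rpow (Finset.sum_nonneg fun i _ => by positivity) ?_ (by positivity)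
    exact Finset.sum_le_sum fun ω _ => Real.rpow_le_rpow (Real.sqrt_nonneg _) (h3 ω) hp0.le
  have h7 : (∑ ω, (2 * avgS l (fun v => ‖S v ω‖) 0)^p.toReal)^(1 / p.toReal) =
      2 * ‖φ (fun ω => avgS l (fun v => ‖S v ω‖) 0)‖ := by
    have h8 : ‖φ ((2:ℝ) • fun ω => avgS l (fun v => ‖S v ω‖) 0)‖ =
        2 * ‖φ (fun ω => avgS l (fun v => ‖S v ω‖) 0)‖ := by
      rw [map_smul, norm_smul]; norm_num
    rw [← h8, PiLp.norm_eq_sum hp0]
    congr 1
    refine Finset.sum_congr rfl fun ω _ => ?_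
    have h9 : 0 ≤ avgS l (fun v => ‖S v ω‖) 0 := avgS_nonneg l (fun v => norm_nonneg _) 0
    have h10 : (φ ((2:ℝ) • fun ω => avgS l (fun v => ‖S v ω‖) 0)) ω = 2 * avgS l (fun v => ‖S v ω‖) 0 := rfl
    rw [h10, Real.norm_eq_abs, abs_of_nonneg (by positivity)]
  rw [h7] at h6
  exact h6.trans (mul_le_mul_of_nonneg_left h1 (by norm_num))

end Block

end Pool.Agent.Lib.MP_02a0e4_an
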