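import Mathlib

/-!
Definitions for the problem on Banach spaces of type (E).
-/

open Filter Asymptotics
open scoped Topology

namespace Pool.Agent.Lib.MP_02a0e4_an

variable (𝕜 : Type*) [RCLike 𝕜]

/-- The Banach-Mazur distance `d(E,F) = inf ‖T‖ ‖T⁻¹‖` over all linear isomorphisms `T : E → F`. -/
noncomputable def bmDist (E F : Type*) [NormedAddCommGroup E] [NormedSpace 𝕜 E]
    [NormedAddCommGroup F] [NormedSpace 𝕜 F] : ℝ :=
  ⨅ T : E ≃L[𝕜] F, ‖(T : E →L[𝕜] F)‖ * ‖(T.symm : F →L[𝕜] E)‖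

variable {𝕜}
variable {X : Type*} [NormedAddCommGroup X] [NormedSpace 𝕜 X]

/-- `P` is a projection of `X` onto the subspace `E`. -/
def IsProjOnto (P : X →L[𝕜] X) (E : Submodule 𝕜 X) : Prop :=
  (∀ x, P x ∈ E) ∧ ∀ x ∈ E, P x = x

/-- The relative projection constant `λ(E,X)`, the infimum of the norms of all bounded
linear projections of `X` onto `E`. -/
noncomputable def projConst (E : Submodule 𝕜 X) : ℝ :=
  ⨅ P : {P : X →L[𝕜] X // IsProjOnto P E}, ‖(P : X →L[𝕜] X)‖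

variable (𝕜 X)

/-- `X` is of type (E): `X` is infinite-dimensional and there are bounded operators
`A n : ℓ₂ⁿ → X`, `B n : X → ℓ₂ⁿ` (`n ≥ 1`) with `B n ∘ A n = id`
and `liminf n^{-1/2} ‖A n‖ ‖B n‖ = 0` (written out: for each `ε > 0`
one has `‖A n‖ ‖B n‖ < ε √n` for infinitely many `n`). -/
def IsTypeE : Prop :=
  ¬ FiniteDimensional 𝕜 X ∧
  ∃ (A : ∀ n : ℕ, EuclideanSpace 𝕜 (Fin n) →L[𝕜] X) (B : ∀ n : ℕ, X →L[𝕜] EuclideanSpace 𝕜 (Fin n)),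
    (∀ n, 1 ≤ n → ∀ x, B n (A n x) = x) ∧
    ∀ ε : ℝ, 0 < ε → ∃ᶠ n : ℕ in atTop, ‖A n‖ * ‖B n‖ < ε * √n

variable {𝕜 X}

/-- Property (a) of a sequence of subspaces. -/
def PropA (Y : ℕ → Submodule 𝕜 X) : Prop :=
  (∃ C : ℝ, ∀ n, 1 ≤ n → projConst (Y n) ≤ C) ∧
    (fun n : ℕ => bmDist 𝕜 (Y n) (EuclideanSpace 𝕜 (Fin n))) =o[atTop] (fun n : ℕ => √(n : ℝ))

/-- Property (b) of a sequence of subspaces. -/
def PropB (Y : ℕ → Submodule 𝕜 X) : Prop :=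
  (∃ C : ℝ, ∀ n, 1 ≤ n → bmDist 𝕜 (Y n) (EuclideanSpace 𝕜 (Fin n)) ≤ C) ∧
    (fun n : ℕ => projConst (Y n)) =o[atTop] (fun n : ℕ => √(n : ℝ))

end Pool.Agent.Lib.MP_02a0e4_an
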