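import Pool.Agent.Lib.MP_02a0e4_an.RandomEmb
import Pool.Agent.Lib.MP_02a0e4_an.Defs

/-!
Almost isometric copies of Hilbert space in finite-codimensional kernels, for spaces of type (E),
and the resulting well complemented almost Euclidean subspaces.
-/

open MeasureTheory ProbabilityTheory Filter
open scoped Topology NNReal ENNReal Real

namespace Pool.Agent.Lib.MP_02a0e4_an

variable {𝕜 : Type*} [RCLike 𝕜] {X : Type*} [NormedAddCommGroup X] [NormedSpace 𝕜 X]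

/-- In a space of type (E), the kernel of any operator into a finite-dimensional Hilbert space
contains almost isometric copies of `ℓ₂ᵏ`. -/
theorem dvoretzky_ker (hX : IsTypeE 𝕜 X) (k : ℕ) {q : ℕ} (Q : X →L[𝕜] EuclideanSpace 𝕜 (Fin q))
    {ε : ℝ} (hε : 0 < ε) (hε1 : ε ≤ 1) :
    ∃ J : EuclideanSpace 𝕜 (Fin k) →L[𝕜] X, (∀ x, Q (J x) = 0) ∧
      ∀ x, (1 - ε) * ‖x‖ ≤ ‖J x‖ ∧ ‖J x‖ ≤ (1 + ε) * ‖x‖ := by
  obtain ⟨-, A, B, hAB, hfreq⟩ := hX
  obtain ⟨N, hN1, hN2⟩ := exists_net (𝕜 := 𝕜) (X := X) k hε hε1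
  set δ := ε / 4 with hδ
  have hδpos : 0 < δ := by positivity
  set K : ℝ := (N.card : ℝ) with hK
  have hK0 : 0 ≤ K := by positivity
  -- choose η with 2 η² K ≤ δ²/2
  set η : ℝ := δ / (2 * Real.sqrt (K + 1)) with hη
  have hη0 : 0 < η := by positivity
  have hη2 : 2 * η^2 * K ≤ δ^2 / 2 := by
    rw [hη, div_pow, mul_pow, Real.sq_sqrt (by positivity)]
    have : 2 * (δ^2 / (2^2 * (K + 1))) * K = (δ^2 / 2) * (K / (K + 1)) := by
      field_simp
    rw [this]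
    have h1 : K / (K + 1) ≤ 1 := by
      rw [div_le_one (by positivity)]; linarith
    nlinarith [sq_nonneg δ]
  obtain ⟨m, hm1, hm2⟩ := (frequently_atTop.1 (hfreq η hη0)) (2 * q + 5)
  set a := ‖A m‖
  set b := ‖B m‖
  have hAm : ∀ x, B m (A m x) = x := hAB m (by omega)
  -- the kernel subspace
  set F : Submodule 𝕜 (EuclideanSpace 𝕜 (Fin m)) := LinearMap.ker (Q.comp (A m)).toLinearMap
  set d := Module.finrank 𝕜 F
  have hd : m ≤ d + q := by
    have h1 := LinearMap.finrank_range_add_finrank_ker (Q.comp (A m)).toLinearMap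
    have h2 : Module.finrank 𝕜 (EuclideanSpace 𝕜 (Fin m)) = m := by simp
    have h3 : Module.finrank 𝕜 (LinearMap.range (Q.comp (A m)).toLinearMap) ≤ q := by
      have := Submodule.finrank_le (LinearMap.range (Q.comp (A m)).toLinearMap)
      simpa using this
    rw [h2] at h1
    change _ + d = m at h1
    omega
  -- isometry onto the kernel
  let U : EuclideanSpace 𝕜 (Fin d) →ₗᵢ[𝕜] EuclideanSpace 𝕜 (Fin m) :=
    F.subtypeₗᵢ.comp (stdOrthonormalBasis 𝕜 F).repr.symm.toLinearIsometry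
  have hUmem : ∀ x, Q (A m (U x)) = 0 := by
    intro x
    have : U x ∈ F := ((stdOrthonormalBasis 𝕜 F).repr.symm x).2
    exact this
  set T : EuclideanSpace 𝕜 (Fin d) →L[𝕜] X := (A m).comp U.toContinuousLinearMap
  have hTa : ∀ x, ‖T x‖ ≤ a * ‖x‖ := by
    intro x
    have h1 : ‖T x‖ ≤ a * ‖U x‖ := (A m).le_opNorm (U x)
    rwa [U.norm_map] at h1
  have hTb0 : ∀ x, ‖x‖ ≤ b * ‖T x‖ := by
    intro x
    have h1 : ‖B m (A m (U x))‖ ≤ b * ‖A m (U x)‖ := (B m).le_opNorm _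
    rw [hAm, U.norm_map] at h1
    exact h1
  have hdpos : 0 < d := by omega
  have hbpos : 0 < b := by
    rcases lt_or_eq_of_le (norm_nonneg (B m)) with h | h
    · exact h
    · exfalso
      have h1 := hTb0 (EuclideanSpace.single ⟨0, hdpos⟩ 1)
      have h2 : b = 0 := h.symm
      rw [h2] at h1
      simp at h1
      linarith
  have ha0 : 0 ≤ a := norm_nonneg _
  have hcond : 2 * (a * b)^2 * N.card < δ^2 * ((d : ℝ) - 2) := by
    have hm0 : (0:ℝ) ≤ m := by positivity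
    have h1 : (a * b)^2 ≤ η^2 * m := by
      have h2 : a * b ≤ η * √(m:ℝ) := hm2.le
      have h3 : (a * b)^2 ≤ (η * √(m:ℝ))^2 := by gcongr
      rwa [mul_pow η, Real.sq_sqrt hm0] at h3
    have h4 : 2 * (a * b)^2 * N.card ≤ (δ^2 / 2) * m := by
      calc 2 * (a * b)^2 * N.card ≤ 2 * (η^2 * m) * K := by gcongr
        _ = (2 * η^2 * K) * m := by ring
        _ ≤ (δ^2 / 2) * m := by gcongr
    have h5 : (m : ℝ) ≤ d + q := by exact_mod_cast hd
    have h6 : (2 * q + 5 : ℝ) ≤ m := by exact_mod_cast hm1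
    have h7 : (m : ℝ) / 2 < (d : ℝ) - 2 := by linarith
    calc 2 * (a * b)^2 * N.card ≤ (δ^2 / 2) * m := h4
      _ = δ^2 * (m / 2) := by ring
      _ < δ^2 * ((d : ℝ) - 2) := by
          have : 0 < δ^2 := by positivity
          exact mul_lt_mul_of_pos_left h7 this
  obtain ⟨c, hc, J0, hJ0⟩ := exists_good T ha0 hbpos hTa hTb0 N hN1 hδpos hcond
  have hfin := hN2 (T.comp J0) c hc (fun x hx => hJ0 x hx)
  refine ⟨((c⁻¹ : ℝ) : 𝕜) • (T.comp J0), fun x => ?_, fun x => ?_⟩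
  · simp only [_root_.smul_apply, ContinuousLinearMap.comp_apply, map_smul]
    have : Q (T (J0 x)) = 0 := hUmem (J0 x)
    rw [this, smul_zero]
  · obtain ⟨h1, h2⟩ := hfin x
    have h3 : ‖(((c⁻¹ : ℝ) : 𝕜) • (T.comp J0)) x‖ = c⁻¹ * ‖(T.comp J0) x‖ := by
      rw [_root_.smul_apply, norm_smul, RCLike.norm_ofReal, abs_of_pos (by positivity)]
    rw [h3]
    constructor
    · calc (1 - ε) * ‖x‖ = c⁻¹ * ((1 - ε) * c * ‖x‖) := by field_simp
        _ ≤ _ := by gcongr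
    · calc c⁻¹ * ‖(T.comp J0) x‖ ≤ c⁻¹ * ((1 + ε) * c * ‖x‖) := by gcongr
        _ = _ := by field_simp

lemma bmDist_le {E F : Type*} [NormedAddCommGroup E] [NormedSpace 𝕜 E]
    [NormedAddCommGroup F] [NormedSpace 𝕜 F] (T : E ≃L[𝕜] F) :
    bmDist 𝕜 E F ≤ ‖(T : E →L[𝕜] F)‖ * ‖(T.symm : F →L[𝕜] E)‖ := by
  refine ciInf_le ⟨0, ?_⟩ T
  rintro _ ⟨S, rfl⟩
  positivity

lemma projConst_le {E : Submodule 𝕜 X} {P : X →L[𝕜] X} (hP : IsProjOnto P E) :
    projConst E ≤ ‖P‖ := by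
  refine ciInf_le ⟨0, ?_⟩ (⟨P, hP⟩ : {P : X →L[𝕜] X // IsProjOnto P E})
  rintro _ ⟨S, rfl⟩
  positivity

lemma bmDist_nonneg {E F : Type*} [NormedAddCommGroup E] [NormedSpace 𝕜 E]
    [NormedAddCommGroup F] [NormedSpace 𝕜 F] : 0 ≤ bmDist 𝕜 E F :=
  Real.iInf_nonneg fun _ => by positivity

lemma projConst_nonneg {E : Submodule 𝕜 X} : 0 ≤ projConst E :=
  Real.iInf_nonneg fun _ => by positivity

/-- The main construction: perturb a factorization by an almost isometric copy in the kernel. -/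
theorem perturb (hX : IsTypeE 𝕜 X) {n : ℕ} (hn : 1 ≤ n)
    (A : EuclideanSpace 𝕜 (Fin n) →L[𝕜] X) (B : X →L[𝕜] EuclideanSpace 𝕜 (Fin n))
    (hBA : ∀ x, B (A x) = x) {ε : ℝ} (hε : 0 < ε) (hε1 : ε ≤ 1/4) :
    ∃ Y : Submodule 𝕜 X, Module.finrank 𝕜 Y = n ∧
      bmDist 𝕜 Y (EuclideanSpace 𝕜 (Fin n)) ≤ (1 + 2 * ε) / (1 - 2 * ε) ∧
      projConst Y ≤ ((1 + 2 * ε) / ε) * (‖A‖ * ‖B‖) := by
  set a := ‖A‖
  have ha : 0 < a := by
    rcases lt_or_eq_of_le (norm_nonneg A) with h | h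
    · exact h
    · exfalso
      have h1 : A = 0 := norm_eq_zero.1 h.symm
      have h2 := hBA (EuclideanSpace.single ⟨0, hn⟩ 1)
      rw [h1] at h2
      have h3 := congrArg norm h2
      simp at h3
  obtain ⟨J, hJ0, hJ⟩ := dvoretzky_ker hX n B hε (by linarith)
  set t : ℝ := a / ε with ht
  have htpos : 0 < t := by positivity
  have hta : a = ε * t := by rw [ht]; field_simp
  set A' : EuclideanSpace 𝕜 (Fin n) →L[𝕜] X := A + (t : 𝕜) • J
  have hBA' : ∀ x, B (A' x) = x := by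
    intro x
    simp only [A', _root_.add_apply, _root_.smul_apply, map_add, map_smul,
      hBA, hJ0, smul_zero, add_zero]
  have hnormtJ : ∀ x, ‖((t : 𝕜) • J) x‖ = t * ‖J x‖ := by
    intro x
    rw [_root_.smul_apply, norm_smul, RCLike.norm_ofReal, abs_of_pos htpos]
  have hlow : ∀ x, t * (1 - 2 * ε) * ‖x‖ ≤ ‖A' x‖ := by
    intro x
    have h1 : ‖((t : 𝕜) • J) x‖ ≤ ‖A' x‖ + ‖A x‖ := by
      have : ((t : 𝕜) • J) x = A' x - A x := by simp [A']
      rw [this]; exact norm_sub_le _ _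
    have h2 : ‖A x‖ ≤ ε * t * ‖x‖ := by rw [← hta]; exact A.le_opNorm x
    rw [hnormtJ] at h1
    have h3 := mul_le_mul_of_nonneg_left (hJ x).1 htpos.le
    nlinarith
  have hup : ∀ x, ‖A' x‖ ≤ t * (1 + 2 * ε) * ‖x‖ := by
    intro x
    have h1 : ‖A' x‖ ≤ ‖A x‖ + ‖((t : 𝕜) • J) x‖ := norm_add_le _ _
    have h2 : ‖A x‖ ≤ ε * t * ‖x‖ := by rw [← hta]; exact A.le_opNorm x
    rw [hnormtJ] at h1
    have h3 := mul_le_mul_of_nonneg_left (hJ x).2 htpos.le
    nlinarith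
  set Y : Submodule 𝕜 X := LinearMap.range A'.toLinearMap
  have hinj : Function.Injective A'.toLinearMap := by
    intro x y hxy
    have h1 : B (A' x) = B (A' y) := congrArg B hxy
    rwa [hBA', hBA'] at h1
  have hfin : Module.finrank 𝕜 Y = n := by
    rw [LinearMap.finrank_range_of_inj hinj]; simp
  -- the isomorphism
  let T0 : Y ≃ₗ[𝕜] EuclideanSpace 𝕜 (Fin n) := (LinearEquiv.ofInjective A'.toLinearMap hinj).symm
  let f1 : Y →L[𝕜] EuclideanSpace 𝕜 (Fin n) := B.comp Y.subtypeL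
  have hf1 : ∀ y : Y, T0 y = f1 y := by
    intro y
    obtain ⟨x, hx⟩ := (LinearEquiv.ofInjective A'.toLinearMap hinj).surjective y
    have h1 : T0 y = x := by rw [← hx]; exact LinearEquiv.symm_apply_apply _ _
    have h2 : (y : X) = A' x := by rw [← hx]; rfl
    rw [h1]
    simp only [f1, ContinuousLinearMap.comp_apply, Submodule.subtypeL_apply, h2, hBA']
  let T : Y ≃L[𝕜] EuclideanSpace 𝕜 (Fin n) :=
    { T0 with
      continuous_toFun := by
        have : (T0 : Y → EuclideanSpace 𝕜 (Fin n)) = f1 := funext hf1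
        change Continuous (T0 : Y → EuclideanSpace 𝕜 (Fin n))
        rw [this]; exact f1.continuous
      continuous_invFun := by
        change Continuous (T0.symm : EuclideanSpace 𝕜 (Fin n) → Y)
        exact LinearMap.continuous_of_finiteDimensional T0.symm.toLinearMap }
  have hTsymm : ∀ x, ((T.symm x : Y) : X) = A' x := fun x => rfl
  have hTnorm : ‖(T : Y →L[𝕜] EuclideanSpace 𝕜 (Fin n))‖ ≤ (t * (1 - 2 * ε))⁻¹ := by
    have hpos : 0 < t * (1 - 2 * ε) := by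
      have : 0 < 1 - 2 * ε := by linarith
      positivity
    refine ContinuousLinearMap.opNorm_le_bound _ (by positivity) fun y => ?_
    have h1 := hlow (T y)
    have h2 : A' (T y) = y := by rw [← hTsymm]; simp
    rw [h2] at h1
    rw [inv_mul_eq_div, le_div_iff₀ hpos, mul_comm]
    exact h1
  have hTsnorm : ‖(T.symm : EuclideanSpace 𝕜 (Fin n) →L[𝕜] Y)‖ ≤ t * (1 + 2 * ε) := by
    refine ContinuousLinearMap.opNorm_le_bound _ (by positivity) fun x => ?_
    exact hup x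
  refine ⟨Y, hfin, ?_, ?_⟩
  · refine (bmDist_le T).trans ?_
    have hpos : 0 < 1 - 2 * ε := by linarith
    calc ‖(T : Y →L[𝕜] EuclideanSpace 𝕜 (Fin n))‖ * ‖(T.symm : EuclideanSpace 𝕜 (Fin n) →L[𝕜] Y)‖
        ≤ (t * (1 - 2 * ε))⁻¹ * (t * (1 + 2 * ε)) := by gcongr
      _ = (1 + 2 * ε) / (1 - 2 * ε) := by field_simp
  · have hP : IsProjOnto (A'.comp B) Y := by
      refine ⟨fun x => ⟨B x, rfl⟩, ?_⟩
      rintro _ ⟨x, rfl⟩
      change A' (B (A' x)) = A' x
      rw [hBA']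
    refine (projConst_le hP).trans ?_
    have hA' : ‖A'‖ ≤ t * (1 + 2 * ε) := ContinuousLinearMap.opNorm_le_bound _ (by positivity) hup
    calc ‖A'.comp B‖ ≤ ‖A'‖ * ‖B‖ := ContinuousLinearMap.opNorm_comp_le _ _
      _ ≤ (t * (1 + 2 * ε)) * ‖B‖ := by gcongr
      _ = ((1 + 2 * ε) / ε) * (a * ‖B‖) := by rw [ht]; field_simp

end Pool.Agent.Lib.MP_02a0e4_an
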