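import Pool.Agent.Lib.MP_02a0e4_an.Neg
import Pool.Agent.Lib.MP_02a0e4_an.Main

/-!
Passing from factorizations to Banach-Mazur distances and projection constants.
-/

open Filter Asymptotics
open scoped Topology NNReal ENNReal Real

namespace Pool.Agent.Lib.MP_02a0e4_an

variable {𝕜 : Type*} [RCLike 𝕜] {X : Type*} [NormedAddCommGroup X] [NormedSpace 𝕜 X]

lemma exists_proj (Z : Submodule 𝕜 X) [FiniteDimensional 𝕜 Z] : ∃ P : X →L[𝕜] X, IsProjOnto P Z := by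
  obtain ⟨f, hf⟩ := Submodule.ClosedComplemented.of_finiteDimensional (𝕜 := 𝕜) Z
  refine ⟨Z.subtypeL.comp f, fun x => (f x).2, fun x hx => ?_⟩
  have := hf ⟨x, hx⟩
  change ((f x : Z) : X) = x
  rw [this]

/-- From an isomorphism and a projection to a factorization. -/
lemma factor_of (Z : Submodule 𝕜 X) {n : ℕ} (T : Z ≃L[𝕜] EuclideanSpace 𝕜 (Fin n)) {P : X →L[𝕜] X}
    (hP : IsProjOnto P Z) : ∃ (A : EuclideanSpace 𝕜 (Fin n) →L[𝕜] X) (B : X →L[𝕜] EuclideanSpace 𝕜 (Fin n)),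
      (∀ x, B (A x) = x) ∧ ‖A‖ * ‖B‖ ≤ (‖(T : Z →L[𝕜] EuclideanSpace 𝕜 (Fin n))‖ *
        ‖(T.symm : EuclideanSpace 𝕜 (Fin n) →L[𝕜] Z)‖) * ‖P‖ := by
  set A : EuclideanSpace 𝕜 (Fin n) →L[𝕜] X := Z.subtypeL.comp (T.symm : EuclideanSpace 𝕜 (Fin n) →L[𝕜] Z)
  set P' : X →L[𝕜] Z := P.codRestrict Z hP.1
  set B : X →L[𝕜] EuclideanSpace 𝕜 (Fin n) := (T : Z →L[𝕜] EuclideanSpace 𝕜 (Fin n)).comp P'
  have hA : ‖A‖ ≤ ‖(T.symm : EuclideanSpace 𝕜 (Fin n) →L[𝕜] Z)‖ :=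
    ContinuousLinearMap.opNorm_le_bound _ (norm_nonneg _) fun x =>
      (T.symm : EuclideanSpace 𝕜 (Fin n) →L[𝕜] Z).le_opNorm x
  have hP' : ‖P'‖ ≤ ‖P‖ :=
    ContinuousLinearMap.opNorm_le_bound _ (norm_nonneg _) fun x => P.le_opNorm x
  have hB : ‖B‖ ≤ ‖(T : Z →L[𝕜] EuclideanSpace 𝕜 (Fin n))‖ * ‖P‖ :=
    (ContinuousLinearMap.opNorm_comp_le _ _).trans (by gcongr)
  refine ⟨A, B, fun x => ?_, ?_⟩
  · have h1 : P' ((T.symm x : Z) : X) = T.symm x := by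
      apply Subtype.ext
      exact hP.2 _ (T.symm x).2
    change T (P' ((T.symm x : Z) : X)) = x
    rw [h1]; simp
  · calc ‖A‖ * ‖B‖ ≤ ‖(T.symm : EuclideanSpace 𝕜 (Fin n) →L[𝕜] Z)‖ *
          (‖(T : Z →L[𝕜] EuclideanSpace 𝕜 (Fin n))‖ * ‖P‖) := by gcongr
      _ = _ := by ring

/-- Lower bounds for factorizations give lower bounds for `d(Z, ℓ₂ⁿ) λ(Z, X)`. -/
lemma dist_mul_proj {n : ℕ} {L : ℝ}
    (h : ∀ (A : EuclideanSpace 𝕜 (Fin n) →L[𝕜] X) (B : X →L[𝕜] EuclideanSpace 𝕜 (Fin n)),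
      (∀ x, B (A x) = x) → L ≤ ‖A‖ * ‖B‖)
    (hn : 1 ≤ n) (Z : Submodule 𝕜 X) (hZ : Module.finrank 𝕜 Z = n) :
    L ≤ bmDist 𝕜 Z (EuclideanSpace 𝕜 (Fin n)) * projConst Z := by
  have : FiniteDimensional 𝕜 Z := FiniteDimensional.of_finrank_pos (by omega)
  obtain ⟨T0⟩ : Nonempty (Z ≃L[𝕜] EuclideanSpace 𝕜 (Fin n)) :=
    FiniteDimensional.nonempty_continuousLinearEquiv_of_finrank_eq (by rw [hZ]; simp)
  obtain ⟨P0, hP0⟩ := exists_proj Z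
  have h1 : ∀ (T : Z ≃L[𝕜] EuclideanSpace 𝕜 (Fin n)) (P : {P : X →L[𝕜] X // IsProjOnto P Z}),
      L ≤ (‖(T : Z →L[𝕜] EuclideanSpace 𝕜 (Fin n))‖ *
        ‖(T.symm : EuclideanSpace 𝕜 (Fin n) →L[𝕜] Z)‖) * ‖(P : X →L[𝕜] X)‖ := by
    intro T P
    obtain ⟨A, B, hAB, hle⟩ := factor_of Z T P.2
    exact (h A B hAB).trans hle
  have : Nonempty (Z ≃L[𝕜] EuclideanSpace 𝕜 (Fin n)) := ⟨T0⟩
  have : Nonempty {P : X →L[𝕜] X // IsProjOnto P Z} := ⟨⟨P0, hP0⟩⟩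
  unfold projConst
  rw [Real.mul_iInf_of_nonneg bmDist_nonneg]
  refine le_ciInf fun P => ?_
  unfold bmDist
  rw [mul_comm, Real.mul_iInf_of_nonneg (norm_nonneg _)]
  refine le_ciInf fun T => ?_
  rw [mul_comm]
  exact h1 T P

/-- `1 ≤ d(E,F)` whenever `E` is non-trivial and isomorphic to `F`. -/
lemma one_le_bmDist {n : ℕ} (hn : 1 ≤ n) (Z : Submodule 𝕜 X) (hZ : Module.finrank 𝕜 Z = n) :
    1 ≤ bmDist 𝕜 Z (EuclideanSpace 𝕜 (Fin n)) := by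
  have : FiniteDimensional 𝕜 Z := FiniteDimensional.of_finrank_pos (by omega)
  have : Nontrivial Z := Module.nontrivial_of_finrank_pos (R := 𝕜) (by omega)
  obtain ⟨T0⟩ : Nonempty (Z ≃L[𝕜] EuclideanSpace 𝕜 (Fin n)) :=
    FiniteDimensional.nonempty_continuousLinearEquiv_of_finrank_eq (by rw [hZ]; simp)
  have : Nonempty (Z ≃L[𝕜] EuclideanSpace 𝕜 (Fin n)) := ⟨T0⟩
  refine le_ciInf fun T => ?_
  exact T.one_le_norm_mul_norm_symm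

/-- The quantitative negative statement for the concrete space. -/
theorem Xspace_bad : ∃ᶠ n : ℕ in atTop, ∀ Z : Submodule 𝕜 (Xspace 𝕜), Module.finrank 𝕜 Z = n →
    √(n:ℝ) / 12 ≤ bmDist 𝕜 Z (EuclideanSpace 𝕜 (Fin n)) * projConst Z := by
  rw [frequently_atTop]
  intro a
  set k := a + 1
  have hk : k ≤ DD 𝕜 k := le_DD 𝕜 k
  refine ⟨2 * DD 𝕜 k, by omega, fun Z hZ => ?_⟩
  refine dist_mul_proj (fun A B hAB => ?_) (by omega) Z hZ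
  have := Xspace_lower k _ rfl A B hAB
  linarith

/-- Near-optimal factorizations. -/
lemma exists_factor_near {n : ℕ} (hn : 1 ≤ n) (Z : Submodule 𝕜 X) (hZ : Module.finrank 𝕜 Z = n) :
    ∃ (A : EuclideanSpace 𝕜 (Fin n) →L[𝕜] X) (B : X →L[𝕜] EuclideanSpace 𝕜 (Fin n)),
      (∀ x, B (A x) = x) ∧ ‖A‖ * ‖B‖ ≤
        (bmDist 𝕜 Z (EuclideanSpace 𝕜 (Fin n)) + 1) * (projConst Z + 1) := by
  have : FiniteDimensional 𝕜 Z := FiniteDimensional.of_finrank_pos (by omega)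
  obtain ⟨T0⟩ : Nonempty (Z ≃L[𝕜] EuclideanSpace 𝕜 (Fin n)) :=
    FiniteDimensional.nonempty_continuousLinearEquiv_of_finrank_eq (by rw [hZ]; simp)
  obtain ⟨P0, hP0⟩ := exists_proj Z
  have : Nonempty (Z ≃L[𝕜] EuclideanSpace 𝕜 (Fin n)) := ⟨T0⟩
  have : Nonempty {P : X →L[𝕜] X // IsProjOnto P Z} := ⟨⟨P0, hP0⟩⟩
  obtain ⟨T, hT⟩ := exists_lt_of_ciInf_lt (show bmDist 𝕜 Z (EuclideanSpace 𝕜 (Fin n)) <
    bmDist 𝕜 Z (EuclideanSpace 𝕜 (Fin n)) + 1 by linarith)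
  obtain ⟨P, hP⟩ := exists_lt_of_ciInf_lt (show projConst Z < projConst Z + 1 by linarith)
  obtain ⟨A, B, hAB, hle⟩ := factor_of Z T P.2
  refine ⟨A, B, hAB, hle.trans ?_⟩
  have h1 : 0 ≤ bmDist 𝕜 Z (EuclideanSpace 𝕜 (Fin n)) := bmDist_nonneg
  gcongr

/-- There is always some factorization in a space of type (E). -/
lemma exists_near_best (hX : IsTypeE 𝕜 X) {n : ℕ} (hn : 1 ≤ n) :
    ∃ (A : EuclideanSpace 𝕜 (Fin n) →L[𝕜] X) (B : X →L[𝕜] EuclideanSpace 𝕜 (Fin n)),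
      (∀ x, B (A x) = x) ∧ ∀ (A' : EuclideanSpace 𝕜 (Fin n) →L[𝕜] X)
        (B' : X →L[𝕜] EuclideanSpace 𝕜 (Fin n)), (∀ x, B' (A' x) = x) →
          ‖A‖ * ‖B‖ ≤ 2 * (‖A'‖ * ‖B'‖) := by
  obtain ⟨-, A0, B0, hAB0, -⟩ := hX
  let S := {AB : (EuclideanSpace 𝕜 (Fin n) →L[𝕜] X) × (X →L[𝕜] EuclideanSpace 𝕜 (Fin n)) //
    ∀ x, AB.2 (AB.1 x) = x}
  have : Nonempty S := ⟨⟨(A0 n, B0 n), hAB0 n hn⟩⟩
  set I := ⨅ s : S, ‖s.1.1‖ * ‖s.1.2‖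
  have hbdd : BddBelow (Set.range fun s : S => ‖s.1.1‖ * ‖s.1.2‖) := ⟨0, by
    rintro _ ⟨s, rfl⟩; positivity⟩
  have hI1 : 1 ≤ I := by
    refine le_ciInf fun s => ?_
    have h1 := s.2 (EuclideanSpace.single ⟨0, hn⟩ 1)
    have h2 : ‖(EuclideanSpace.single (⟨0, hn⟩ : Fin n) (1:𝕜))‖ = 1 := by simp
    calc (1:ℝ) = ‖s.1.2 (s.1.1 (EuclideanSpace.single ⟨0, hn⟩ 1))‖ := by rw [h1, h2]
      _ ≤ ‖s.1.2‖ * (‖s.1.1‖ * 1) := by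
          refine (s.1.2.le_opNorm _).trans ?_
          gcongr
          rw [← h2]
          exact s.1.1.le_opNorm _
      _ = ‖s.1.1‖ * ‖s.1.2‖ := by ring
  obtain ⟨s, hs⟩ := exists_lt_of_ciInf_lt (show I < 2 * I by linarith)
  refine ⟨s.1.1, s.1.2, s.2, fun A' B' h' => hs.le.trans ?_⟩
  have : I ≤ ‖A'‖ * ‖B'‖ := ciInf_le hbdd ⟨(A', B'), h'⟩
  linarith

end Pool.Agent.Lib.MP_02a0e4_an
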