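import Pool.Agent.Lib.MP_02a0e4_an.Block

/-!
Lower bound for factorizations of the identity of `ℓ₂ⁿ` through an `ℓ₁`-sum of `ℓ_{p_k}^{N_k}`.
-/

open Filter
open scoped Topology NNReal ENNReal Real

namespace Pool.Agent.Lib.MP_02a0e4_an

variable (𝕜 : Type*) [RCLike 𝕜]

/-- the blocks -/
abbrev Blk (p : ℕ → ℝ≥0∞) (N : ℕ → ℕ) (k : ℕ) : Type _ := PiLp (p k) (fun _ : Fin (N k) => 𝕜)

variable {𝕜}

theorem lower_bound (p : ℕ → ℝ≥0∞) [∀ k, Fact (1 ≤ p k)] (hp : ∀ k, p k ≠ ∞) (N : ℕ → ℕ)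
    (n k : ℕ) (hn : 2 * ∑ j : Fin k, N j ≤ n)
    (net : Finset (EuclideanSpace 𝕜 (Fin n))) (hnet : ∀ x ∈ net, ‖x‖ ≤ 1)
    (hnet2 : ∀ β : EuclideanSpace 𝕜 (Fin n), ∃ x ∈ net, ‖β‖ ≤ 2 * ‖inner 𝕜 x β‖)
    (hK : ∀ j, k ≤ j → (net.card : ℝ)^((p j).toReal - 1) ≤ 2^(p j).toReal)
    (A : EuclideanSpace 𝕜 (Fin n) →L[𝕜] lp (Blk 𝕜 p N) 1)
    (B : lp (Blk 𝕜 p N) 1 →L[𝕜] EuclideanSpace 𝕜 (Fin n))
    (hBA : ∀ x, B (A x) = x) : √(n:ℝ) ≤ 12 * (‖A‖ * ‖B‖) := by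
  classical
  -- the restriction to the first `k` blocks
  let R : (EuclideanSpace 𝕜 (Fin n)) →ₗ[𝕜] (∀ j : Fin k, Blk 𝕜 p N j) :=
    { toFun := fun x j => (A x) (j : ℕ)
      map_add' := fun x y => by ext j; simp
      map_smul' := fun c x => by ext j; simp }
  set F : Submodule 𝕜 (EuclideanSpace 𝕜 (Fin n)) := LinearMap.ker R
  set d := Module.finrank 𝕜 F
  have hd : n ≤ 2 * d := by
    have h1 := LinearMap.finrank_range_add_finrank_ker R
    have h2 : Module.finrank 𝕜 (EuclideanSpace 𝕜 (Fin n)) = n := by simp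
    have h3 : Module.finrank 𝕜 (LinearMap.range R) ≤ ∑ j : Fin k, N j := by
      refine (Submodule.finrank_le _).trans ?_
      rw [Module.finrank_pi_fintype]
      refine Finset.sum_le_sum fun j _ => ?_
      have : Module.finrank 𝕜 (Blk 𝕜 p N j) = N j := by
        rw [(WithLp.linearEquiv (p j) 𝕜 (Fin (N j) → 𝕜)).finrank_eq]
        simp
      exact this.le
    rw [h2] at h1
    change _ + d = n at h1
    omega
  set b := stdOrthonormalBasis 𝕜 F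
  set f : Fin d → (EuclideanSpace 𝕜 (Fin n)) := fun i => (b i : (EuclideanSpace 𝕜 (Fin n))) with hf
  have hfo : Orthonormal 𝕜 f := b.orthonormal.comp_linearIsometry F.subtypeₗᵢ
  have hf0 : ∀ i, ∀ j < k, (A (f i)) j = 0 := by
    intro i j hj
    have h1 : R (f i) = 0 := (b i).2
    have := congrFun h1 ⟨j, hj⟩
    exact this
  set l : List (EuclideanSpace 𝕜 (Fin n)) := List.ofFn f
  have hlsum : ∀ φ : (EuclideanSpace 𝕜 (Fin n)) → ℝ, (l.map φ).sum = ∑ i, φ (f i) := by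
    intro φ
    simp [l, List.map_ofFn, List.sum_ofFn]
  have hls : (l.map (fun v => ‖v‖^2)).sum = d := by
    rw [hlsum]
    simp [hfo.1]
  -- the pieces of `B`
  set T : ∀ j, Blk 𝕜 p N j →L[𝕜] (EuclideanSpace 𝕜 (Fin n)) := fun j => B.comp (lp.singleContinuousLinearMap 𝕜 (Blk 𝕜 p N) 1 j)
  have hT : ∀ j, ‖T j‖ ≤ ‖B‖ := by
    intro j
    refine ContinuousLinearMap.opNorm_le_bound _ (norm_nonneg _) fun x => ?_
    calc ‖T j x‖ ≤ ‖B‖ * ‖lp.single 1 j x‖ := B.le_opNorm _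
      _ = ‖B‖ * ‖x‖ := by rw [lp.norm_single (by norm_num)]
  set S : ∀ j, (EuclideanSpace 𝕜 (Fin n)) →+ Blk 𝕜 p N j := fun j =>
    { toFun := fun x => (A x) j
      map_zero' := by simp
      map_add' := fun x y => by simp }
  set τ : ℕ → 𝕜 := fun j => ∑ i, inner 𝕜 (f i) (T j (S j (f i)))
  have hsum : HasSum τ (d : 𝕜) := by
    have h1 : ∀ i, HasSum (fun j => inner 𝕜 (f i) (T j (S j (f i)))) (1 : 𝕜) := by
      intro i
      have h2 := lp.hasSum_single (p := 1) (by norm_num) (A (f i))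
      have h3 := B.hasSum h2
      have h4 := (innerSL 𝕜 (f i)).hasSum h3
      rw [hBA] at h4
      have h5 : innerSL 𝕜 (f i) (f i) = 1 := by
        rw [innerSL_apply_apply, inner_self_eq_norm_sq_to_K, hfo.1 i]; simp
      rw [h5] at h4
      exact h4
    have h6 := hasSum_sum (s := (Finset.univ : Finset (Fin d))) (fun i _ => h1 i)
    simpa using h6
  -- bounds
  set c : ℕ → ℝ := fun j => avgS l (fun v => ‖S j v‖) 0
  have hc0 : ∀ j, 0 ≤ c j := fun j => avgS_nonneg l (fun v => norm_nonneg _) 0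
  have hτ : ∀ j, ‖τ j‖ ≤ 8 * ‖B‖ * c j := by
    intro j
    by_cases hj : j < k
    · have : τ j = 0 := by
        refine Finset.sum_eq_zero fun i _ => ?_
        have h0 : S j (f i) = 0 := hf0 i j hj
        rw [h0, map_zero, inner_zero_right]
      rw [this, norm_zero]
      exact mul_nonneg (by positivity) (hc0 j)
    · push Not at hj
      have h1 := block_bound (hp j) net hnet hnet2 (hK j hj) (T j) f hfo (fun i => S j (f i))
      have h2 := square_bound (hp j) (S j) l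
      have h3 : ∀ ω, (l.map (fun v => ‖S j v ω‖^2)).sum = ∑ i, ‖S j (f i) ω‖^2 := fun ω =>
        hlsum (fun v => ‖S j v ω‖^2)
      simp only [h3] at h2
      calc ‖τ j‖ ≤ 4 * ‖T j‖ * (∑ ω, (Real.sqrt (∑ i, ‖S j (f i) ω‖^2))^(p j).toReal)^(1 / (p j).toReal) := h1
        _ ≤ 4 * ‖B‖ * (2 * c j) := by
            gcongr
            exact hT j
        _ = 8 * ‖B‖ * c j := by ring
  have hcsum : ∀ s : Finset ℕ, ∑ j ∈ s, c j ≤ ‖A‖ * √(d:ℝ) := by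
    intro s
    rw [← avgS_sum]
    have h1 : ∀ v : (EuclideanSpace 𝕜 (Fin n)), ∑ j ∈ s, ‖S j v‖ ≤ ‖A‖ * ‖v‖ := by
      intro v
      have h2 := lp.sum_rpow_le_norm_rpow (p := 1) (by norm_num) (A v) s
      simp only [ENNReal.toReal_one, Real.rpow_one] at h2
      exact h2.trans (A.le_opNorm v)
    refine (avgS_mono l h1 0).trans ?_
    rw [avgS_mul]
    refine mul_le_mul_of_nonneg_left ?_ (norm_nonneg _)
    have h3 := avgS_norm_le l
    rw [hls] at h3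
    exact h3
  have hfin : (d : ℝ) ≤ 8 * ‖B‖ * (‖A‖ * √(d:ℝ)) := by
    have h1 : Tendsto (fun s : Finset ℕ => ‖∑ j ∈ s, τ j‖) atTop (𝓝 ‖(d : 𝕜)‖) := hsum.norm
    have h2 : ‖(d : 𝕜)‖ ≤ 8 * ‖B‖ * (‖A‖ * √(d:ℝ)) := by
      refine le_of_tendsto h1 (Eventually.of_forall fun s => ?_)
      calc ‖∑ j ∈ s, τ j‖ ≤ ∑ j ∈ s, ‖τ j‖ := norm_sum_le _ _
        _ ≤ ∑ j ∈ s, 8 * ‖B‖ * c j := Finset.sum_le_sum fun j _ => hτ j
        _ = 8 * ‖B‖ * ∑ j ∈ s, c j := by rw [Finset.mul_sum]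
        _ ≤ _ := by
            have := hcsum s
            gcongr
    simpa using h2
  -- conclusion
  rcases Nat.eq_zero_or_pos n with h0 | hnpos
  · have : √(n:ℝ) = 0 := by rw [h0]; simp
    rw [this]; positivity
  have hdpos : 0 < d := by omega
  have hdR : (0:ℝ) < d := by exact_mod_cast hdpos
  have hsd : 0 < √(d:ℝ) := Real.sqrt_pos.2 hdR
  have h1 : √(d:ℝ) ≤ 8 * (‖A‖ * ‖B‖) := by
    have h2 : √(d:ℝ) * √(d:ℝ) ≤ (8 * (‖A‖ * ‖B‖)) * √(d:ℝ) := by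
      rw [Real.mul_self_sqrt hdR.le]
      calc (d:ℝ) ≤ 8 * ‖B‖ * (‖A‖ * √(d:ℝ)) := hfin
        _ = _ := by ring
    exact le_of_mul_le_mul_right h2 hsd
  have h3 : √(n:ℝ) ≤ (3/2) * √(d:ℝ) := by
    have h4 : (n:ℝ) ≤ 2 * d := by exact_mod_cast hd
    have h5 : (3/2) * √(d:ℝ) = √((9/4) * d) := by
      rw [Real.sqrt_mul (by norm_num)]
      congr 1
      rw [show (9/4 : ℝ) = (3/2)^2 by norm_num, Real.sqrt_sq (by norm_num)]
    rw [h5]
    exact Real.sqrt_le_sqrt (by linarith)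
  calc √(n:ℝ) ≤ (3/2) * √(d:ℝ) := h3
    _ ≤ (3/2) * (8 * (‖A‖ * ‖B‖)) := by gcongr
    _ = 12 * (‖A‖ * ‖B‖) := by ring

end Pool.Agent.Lib.MP_02a0e4_an
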