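import Pool.Agent.Lib.MP_02a0e4_an.Lower
import Pool.Agent.Lib.MP_02a0e4_an.Defs

/-!
The concrete `ℓ₁`-sum of `ℓ_{p_k}^{N_k}` which is of type (E) but has, for infinitely many `n`, no
good `n`-dimensional subspaces.
-/

open Filter Asymptotics
open scoped Topology NNReal ENNReal Real

namespace Pool.Agent.Lib.MP_02a0e4_an

section Net
variable (𝕜 : Type*) [RCLike 𝕜]

lemma exists_norming_net (n : ℕ) : ∃ K : ℕ, ∃ net : Finset (EuclideanSpace 𝕜 (Fin n)),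
    net.card ≤ 2^K ∧ (∀ x ∈ net, ‖x‖ ≤ 1) ∧
    ∀ β : EuclideanSpace 𝕜 (Fin n), ∃ x ∈ net, ‖β‖ ≤ 2 * ‖inner 𝕜 x β‖ := by
  classical
  obtain ⟨t, ht, htf, hcov⟩ := (isCompact_sphere (0 : EuclideanSpace 𝕜 (Fin n)) 1).finite_cover_balls
    (show (0:ℝ) < 1/2 by norm_num)
  refine ⟨(insert 0 htf.toFinset).card, insert 0 htf.toFinset, Nat.lt_two_pow_self.le, ?_, ?_⟩
  · intro x hx
    rcases Finset.mem_insert.1 hx with h | h
    · simp [h]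
    · have := ht (htf.mem_toFinset.1 h)
      rw [mem_sphere_zero_iff_norm] at this
      exact this.le
  · intro β
    by_cases hβ : β = 0
    · exact ⟨0, Finset.mem_insert_self _ _, by simp [hβ]⟩
    have hβn : 0 < ‖β‖ := norm_pos_iff.2 hβ
    set u : EuclideanSpace 𝕜 (Fin n) := ((‖β‖⁻¹ : ℝ) : 𝕜) • β
    have hu : ‖u‖ = 1 := by
      simp only [u, norm_smul, RCLike.norm_ofReal, abs_inv, abs_norm]
      field_simp
    have hβu : β = ((‖β‖ : ℝ) : 𝕜) • u := by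
      simp only [u, smul_smul]
      rw [← RCLike.ofReal_mul, mul_inv_cancel₀ hβn.ne']
      simp
    have : u ∈ ⋃ x ∈ t, Metric.ball x (1/2) := hcov (by simpa using hu)
    simp only [Set.mem_iUnion, Metric.mem_ball, exists_prop] at this
    obtain ⟨x, hx, hd⟩ := this
    refine ⟨x, Finset.mem_insert_of_mem (htf.mem_toFinset.2 hx), ?_⟩
    have hx1 : ‖x‖ = 1 := by
      have := ht hx
      rwa [mem_sphere_zero_iff_norm] at this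
    rw [dist_eq_norm] at hd
    have h1 : inner 𝕜 x u = 1 + inner 𝕜 x (u - x) := by
      rw [inner_sub_right, inner_self_eq_norm_sq_to_K, hx1]; simp
    have h2 : ‖inner 𝕜 x (u - x)‖ ≤ 1/2 := by
      calc ‖inner 𝕜 x (u - x)‖ ≤ ‖x‖ * ‖u - x‖ := norm_inner_le_norm _ _
        _ ≤ 1 * (1/2) := by rw [hx1]; gcongr
        _ = 1/2 := by norm_num
    have h3 : 1/2 ≤ ‖inner 𝕜 x u‖ := by
      rw [h1]
      have h4 : ‖(1:𝕜)‖ ≤ ‖1 + inner 𝕜 x (u - x)‖ + ‖inner 𝕜 x (u - x)‖ := by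
        have : (1:𝕜) = (1 + inner 𝕜 x (u - x)) - inner 𝕜 x (u - x) := by ring
        conv_lhs => rw [this]
        exact norm_sub_le _ _
      rw [norm_one] at h4
      linarith
    have h5 : ‖inner 𝕜 x β‖ = ‖β‖ * ‖inner 𝕜 x u‖ := by
      conv_lhs => rw [hβu, inner_smul_right, norm_mul, RCLike.norm_ofReal, abs_norm]
    rw [h5]
    nlinarith

/-- exponent of the size of a norming net -/
noncomputable def kap (n : ℕ) : ℕ := Classical.choose (exists_norming_net 𝕜 n)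

lemma kap_spec (n : ℕ) : ∃ net : Finset (EuclideanSpace 𝕜 (Fin n)),
    net.card ≤ 2^(kap 𝕜 n) ∧ (∀ x ∈ net, ‖x‖ ≤ 1) ∧
    ∀ β : EuclideanSpace 𝕜 (Fin n), ∃ x ∈ net, ‖β‖ ≤ 2 * ‖inner 𝕜 x β‖ :=
  Classical.choose_spec (exists_norming_net 𝕜 n)

/-- a monotone majorant of `kap` -/
noncomputable def kapS (n : ℕ) : ℕ := ∑ i ∈ Finset.range (n + 1), kap 𝕜 i

lemma kap_le_kapS (n : ℕ) : kap 𝕜 n ≤ kapS 𝕜 n :=
  Finset.single_le_sum (f := fun i => kap 𝕜 i) (fun _ _ => Nat.zero_le _)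
    (Finset.mem_range.2 (Nat.lt_succ_self n))

lemma kapS_mono : Monotone (kapS 𝕜) := by
  intro m n hmn
  exact Finset.sum_le_sum_of_subset (Finset.range_mono (by omega))

/-- the total dimension of the first `k` blocks -/
noncomputable def DD : ℕ → ℕ
  | 0 => 0
  | (k + 1) => DD k + (k + 2)^(kapS 𝕜 (2 * DD k) + k + 3)

/-- the conjugate exponents -/
noncomputable def qq (k : ℕ) : ℕ := kapS 𝕜 (2 * DD 𝕜 k) + k + 3

/-- the dimensions of the blocks -/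
noncomputable def NN (k : ℕ) : ℕ := (k + 2)^(qq 𝕜 k)

lemma DD_succ (k : ℕ) : DD 𝕜 (k + 1) = DD 𝕜 k + NN 𝕜 k := rfl

lemma DD_eq (k : ℕ) : DD 𝕜 k = ∑ j : Fin k, NN 𝕜 j := by
  induction k with
  | zero => rfl
  | succ k ih => rw [DD_succ, ih, Fin.sum_univ_castSucc]; rfl

lemma DD_mono : Monotone (DD 𝕜) := monotone_nat_of_le_succ fun k => by rw [DD_succ]; omega

lemma qq_mono : StrictMono (qq 𝕜) := by
  apply strictMono_nat_of_lt_succ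
  intro k
  unfold qq
  have : kapS 𝕜 (2 * DD 𝕜 k) ≤ kapS 𝕜 (2 * DD 𝕜 (k+1)) :=
    kapS_mono 𝕜 (Nat.mul_le_mul_left 2 (DD_mono 𝕜 (Nat.le_succ k)))
  omega

lemma three_le_qq (k : ℕ) : 3 ≤ qq 𝕜 k := by unfold qq; omega

lemma NN_strictMono : StrictMono (NN 𝕜) := by
  apply strictMono_nat_of_lt_succ
  intro k
  unfold NN
  calc (k + 2)^(qq 𝕜 k) < (k + 1 + 2)^(qq 𝕜 k) :=
        Nat.pow_lt_pow_left (by omega) (by have := three_le_qq 𝕜 k; omega)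
    _ ≤ (k + 1 + 2)^(qq 𝕜 (k + 1)) :=
        Nat.pow_le_pow_right (by omega) (qq_mono 𝕜 (Nat.lt_succ_self k)).le

lemma le_NN (k : ℕ) : k ≤ NN 𝕜 k := (NN_strictMono 𝕜).le_apply

lemma le_DD (k : ℕ) : k ≤ DD 𝕜 k := by
  induction k with
  | zero => exact Nat.zero_le _
  | succ k ih =>
    rw [DD_succ]
    have : 1 ≤ NN 𝕜 k := Nat.one_le_pow _ _ (by omega)
    omega

/-- the exponents -/
noncomputable def pp (k : ℕ) : ℝ≥0∞ := ENNReal.ofReal ((qq 𝕜 k : ℝ) / ((qq 𝕜 k : ℝ) - 1))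

lemma qq_real (k : ℕ) : (3:ℝ) ≤ (qq 𝕜 k : ℝ) := by exact_mod_cast three_le_qq 𝕜 k

lemma pp_toReal (k : ℕ) : (pp 𝕜 k).toReal = (qq 𝕜 k : ℝ) / ((qq 𝕜 k : ℝ) - 1) := by
  unfold pp
  have := qq_real 𝕜 k
  rw [ENNReal.toReal_ofReal]
  apply div_nonneg <;> linarith

lemma pp_ne_top (k : ℕ) : pp 𝕜 k ≠ ∞ := ENNReal.ofReal_ne_top

instance pp_fact (k : ℕ) : Fact (1 ≤ pp 𝕜 k) := ⟨by
  unfold pp
  have := qq_real 𝕜 k
  rw [← ENNReal.ofReal_one]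
  apply ENNReal.ofReal_le_ofReal
  rw [le_div_iff₀ (by linarith)]
  linarith⟩

/-- The counterexample space. -/
abbrev Xspace : Type _ := lp (Blk 𝕜 (pp 𝕜) (NN 𝕜)) 1

variable {𝕜}

lemma Xspace_lower (k : ℕ) (n : ℕ) (hn : n = 2 * DD 𝕜 k)
    (A : EuclideanSpace 𝕜 (Fin n) →L[𝕜] Xspace 𝕜)
    (B : Xspace 𝕜 →L[𝕜] EuclideanSpace 𝕜 (Fin n))
    (hBA : ∀ x, B (A x) = x) : √(n:ℝ) ≤ 12 * (‖A‖ * ‖B‖) := by
  obtain ⟨net, hcard, hnet, hnet2⟩ := kap_spec 𝕜 n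
  refine lower_bound (pp 𝕜) (pp_ne_top 𝕜) (NN 𝕜) n k ?_ net hnet hnet2 ?_ A B hBA
  · rw [hn, DD_eq]
  · intro j hj
    have hq := qq_real 𝕜 j
    have h1 : kap 𝕜 n ≤ qq 𝕜 j := by
      have h2 := kap_le_kapS 𝕜 n
      have h3 : kapS 𝕜 n ≤ kapS 𝕜 (2 * DD 𝕜 j) := by
        apply kapS_mono
        rw [hn]
        exact Nat.mul_le_mul_left 2 (DD_mono 𝕜 hj)
      unfold qq; omega
    have h2 : (net.card : ℝ) ≤ 2^(qq 𝕜 j : ℝ) := by
      rw [Real.rpow_natCast]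
      have : net.card ≤ 2^(qq 𝕜 j) := hcard.trans (Nat.pow_le_pow_right (by norm_num) h1)
      exact_mod_cast this
    have h3 : (pp 𝕜 j).toReal - 1 = 1 / ((qq 𝕜 j : ℝ) - 1) := by
      rw [pp_toReal]
      have : (qq 𝕜 j : ℝ) - 1 ≠ 0 := by linarith
      field_simp
      ring
    have h4 : 0 ≤ (pp 𝕜 j).toReal - 1 := by
      rw [h3]
      apply div_nonneg <;> linarith
    calc (net.card : ℝ)^((pp 𝕜 j).toReal - 1) ≤ (2^(qq 𝕜 j : ℝ))^((pp 𝕜 j).toReal - 1) :=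
          Real.rpow_le_rpow (by positivity) h2 h4
      _ = 2^(pp 𝕜 j).toReal := by
          rw [← Real.rpow_mul (by norm_num), h3, pp_toReal]
          congr 1
          ring

/-- finite-dimensional comparison of `ℓ_p` and `ℓ₂` -/
lemma norm_p_le (k : ℕ) (x : Fin (NN 𝕜 k) → 𝕜) :
    ‖(WithLp.toLp (pp 𝕜 k) x : Blk 𝕜 (pp 𝕜) (NN 𝕜) k)‖ ≤
      √(NN 𝕜 k : ℝ) / (k + 2) * ‖(WithLp.toLp 2 x : EuclideanSpace 𝕜 (Fin (NN 𝕜 k)))‖ := by
  set p := (pp 𝕜 k).toReal with hp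
  have hq := qq_real 𝕜 k
  have hpe : p = (qq 𝕜 k : ℝ) / ((qq 𝕜 k : ℝ) - 1) := pp_toReal 𝕜 k
  have hp1 : 1 ≤ p := by
    rw [hpe, le_div_iff₀ (by linarith)]; linarith
  have hp2 : p ≤ 2 := by
    rw [hpe, div_le_iff₀ (by linarith)]; linarith
  have hp0 : 0 < p := by linarith
  have h2p : 1 ≤ 2 / p := by rw [le_div_iff₀ hp0]; linarith
  set s : ℝ := ∑ i, ‖x i‖^p with hs
  have hs0 : 0 ≤ s := Finset.sum_nonneg fun i _ => by positivity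
  have e1 : ‖(WithLp.toLp (pp 𝕜 k) x : Blk 𝕜 (pp 𝕜) (NN 𝕜) k)‖ = s^(1/p) := by
    rw [PiLp.norm_eq_sum hp0]
  have e2 : ‖(WithLp.toLp 2 x : EuclideanSpace 𝕜 (Fin (NN 𝕜 k)))‖^2 = ∑ i, ‖x i‖^2 := by
    rw [EuclideanSpace.norm_sq_eq]
  have h1 := Real.rpow_sum_le_const_mul_sum_rpow (Finset.univ : Finset (Fin (NN 𝕜 k)))
    (fun i => ‖x i‖^p) h2p
  have h3 : ∀ i, |‖x i‖^p| = ‖x i‖^p := fun i => abs_of_nonneg (by positivity)
  simp only [h3] at h1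
  have h4 : ∀ i, (‖x i‖^p)^(2/p) = ‖x i‖^2 := by
    intro i
    rw [← Real.rpow_mul (norm_nonneg _), mul_div_cancel₀ _ hp0.ne']
    norm_num
  simp only [h4, Finset.card_univ, Fintype.card_fin] at h1
  rw [← e2] at h1
  have hN : ((NN 𝕜 k : ℝ))^(2/p - 1) = (√(NN 𝕜 k : ℝ) / (k + 2))^2 := by
    have h5 : 2/p - 1 = 1 - 2 / (qq 𝕜 k : ℝ) := by
      rw [hpe]
      have h6 : (qq 𝕜 k : ℝ) - 1 ≠ 0 := by linarith
      have h7 : (qq 𝕜 k : ℝ) ≠ 0 := by linarith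
      field_simp
      ring
    rw [h5, div_pow, Real.sq_sqrt (by positivity), Real.rpow_sub, Real.rpow_one]
    · congr 1
      have h8 : (NN 𝕜 k : ℝ) = ((k:ℝ) + 2)^(qq 𝕜 k : ℝ) := by
        rw [Real.rpow_natCast]; unfold NN; push_cast; ring
      rw [h8, ← Real.rpow_mul (by positivity)]
      have h9 : (qq 𝕜 k : ℝ) * (2 / (qq 𝕜 k : ℝ)) = 2 := by
        have h7 : (qq 𝕜 k : ℝ) ≠ 0 := by linarith
        field_simp
      rw [h9]; norm_num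
    · have : 0 < NN 𝕜 k := by unfold NN; positivity
      exact_mod_cast this
  rw [hN] at h1
  have h5 : (s^(1/p))^2 ≤ (√(NN 𝕜 k : ℝ) / (k + 2) * ‖(WithLp.toLp 2 x : EuclideanSpace 𝕜 (Fin (NN 𝕜 k)))‖)^2 := by
    rw [mul_pow]
    calc (s^(1/p))^2 = s^(2/p) := by
          rw [← Real.rpow_natCast, ← Real.rpow_mul hs0]
          congr 1
          push_cast
          ring
      _ ≤ _ := h1
  rw [e1]
  exact (pow_le_pow_iff_left₀ (by positivity) (by positivity) two_ne_zero).1 h5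

lemma norm_two_le (k : ℕ) (x : Fin (NN 𝕜 k) → 𝕜) :
    ‖(WithLp.toLp 2 x : EuclideanSpace 𝕜 (Fin (NN 𝕜 k)))‖ ≤
      ‖(WithLp.toLp (pp 𝕜 k) x : Blk 𝕜 (pp 𝕜) (NN 𝕜) k)‖ := by
  set p := (pp 𝕜 k).toReal with hp
  have hq := qq_real 𝕜 k
  have hpe : p = (qq 𝕜 k : ℝ) / ((qq 𝕜 k : ℝ) - 1) := pp_toReal 𝕜 k
  have hp1 : 1 ≤ p := by
    rw [hpe, le_div_iff₀ (by linarith)]; linarith
  have hp2 : p ≤ 2 := by
    rw [hpe, div_le_iff₀ (by linarith)]; linarith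
  have hp0 : 0 < p := by linarith
  set r := ‖(WithLp.toLp (pp 𝕜 k) x : Blk 𝕜 (pp 𝕜) (NN 𝕜) k)‖ with hr
  have hr0 : 0 ≤ r := norm_nonneg _
  have e1 : r^p = ∑ i, ‖x i‖^p := by
    rw [hr, PiLp.norm_eq_sum hp0, ← Real.rpow_mul (Finset.sum_nonneg fun i _ => by positivity),
      one_div_mul_cancel hp0.ne', Real.rpow_one]
  have e2 : ‖(WithLp.toLp 2 x : EuclideanSpace 𝕜 (Fin (NN 𝕜 k)))‖^2 = ∑ i, ‖x i‖^2 := by
    rw [EuclideanSpace.norm_sq_eq]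
  have hi : ∀ i, ‖x i‖ ≤ r := fun i => PiLp.norm_apply_le (WithLp.toLp (pp 𝕜 k) x) i
  have h1 : ∀ i, ‖x i‖^2 ≤ ‖x i‖^p * r^(2 - p) := by
    intro i
    have h2 : ‖x i‖^(2:ℝ) = ‖x i‖^p * ‖x i‖^(2 - p) := by
      rcases eq_or_lt_of_le (norm_nonneg (x i)) with h | h
      · rw [← h, Real.zero_rpow (by norm_num), Real.zero_rpow hp0.ne', zero_mul]
      · rw [← Real.rpow_add h]; congr 1; ring
    have h3 : ‖x i‖^2 = ‖x i‖^(2:ℝ) := by norm_num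
    rw [h3, h2]
    have : ‖x i‖^(2 - p) ≤ r^(2 - p) := Real.rpow_le_rpow (norm_nonneg _) (hi i) (by linarith)
    gcongr
  have h2 : ‖(WithLp.toLp 2 x : EuclideanSpace 𝕜 (Fin (NN 𝕜 k)))‖^2 ≤ r^2 := by
    rw [e2]
    calc ∑ i, ‖x i‖^2 ≤ ∑ i, ‖x i‖^p * r^(2 - p) := Finset.sum_le_sum fun i _ => h1 i
      _ = r^p * r^(2 - p) := by rw [← Finset.sum_mul, e1]
      _ = r^2 := by
        rcases eq_or_lt_of_le hr0 with h | h
        · rw [← h, Real.zero_rpow hp0.ne']; simp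
        · rw [← Real.rpow_add h]
          norm_num
  exact (pow_le_pow_iff_left₀ (norm_nonneg _) hr0 two_ne_zero).1 h2

/-- factorization of `ℓ₂^{N_k}` -/
lemma factor_block (k : ℕ) : ∃ (A : EuclideanSpace 𝕜 (Fin (NN 𝕜 k)) →L[𝕜] Xspace 𝕜)
    (B : Xspace 𝕜 →L[𝕜] EuclideanSpace 𝕜 (Fin (NN 𝕜 k))), (∀ x, B (A x) = x) ∧
      ‖A‖ * ‖B‖ ≤ √(NN 𝕜 k : ℝ) / (k + 2) := by
  classical
  -- `A`
  let a0 : EuclideanSpace 𝕜 (Fin (NN 𝕜 k)) →ₗ[𝕜] Blk 𝕜 (pp 𝕜) (NN 𝕜) k :=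
    { toFun := fun x => WithLp.toLp (pp 𝕜 k) (fun i => x i)
      map_add' := fun _ _ => rfl
      map_smul' := fun _ _ => rfl }
  let A0 := a0.mkContinuous (√(NN 𝕜 k : ℝ) / (k + 2)) (fun x => norm_p_le k (fun i => x i))
  let A : EuclideanSpace 𝕜 (Fin (NN 𝕜 k)) →L[𝕜] Xspace 𝕜 :=
    (lp.singleContinuousLinearMap 𝕜 (Blk 𝕜 (pp 𝕜) (NN 𝕜)) 1 k).comp A0
  have hA : ‖A‖ ≤ √(NN 𝕜 k : ℝ) / (k + 2) := by
    refine ContinuousLinearMap.opNorm_le_bound _ (by positivity) fun x => ?_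
    have h1 : ‖A x‖ = ‖A0 x‖ := lp.norm_single (by norm_num) _ _
    rw [h1]
    exact norm_p_le k (fun i => x i)
  let b0 : Xspace 𝕜 →ₗ[𝕜] EuclideanSpace 𝕜 (Fin (NN 𝕜 k)) :=
    { toFun := fun f => WithLp.toLp 2 (fun i => f k i)
      map_add' := fun _ _ => rfl
      map_smul' := fun _ _ => rfl }
  have hb0 : ∀ f, ‖b0 f‖ ≤ 1 * ‖f‖ := by
    intro f
    rw [one_mul]
    calc ‖b0 f‖ ≤ ‖f k‖ := norm_two_le k (fun i => f k i)
      _ ≤ ‖f‖ := lp.norm_apply_le_norm (by norm_num) f k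
  let B := b0.mkContinuous 1 hb0
  refine ⟨A, B, ?_, ?_⟩
  · intro x
    have h1 : (A x) k = A0 x := lp.single_apply_self _ _ _
    change WithLp.toLp 2 (fun i => (A x) k i) = x
    rw [h1]
    rfl
  · have hB : ‖B‖ ≤ 1 := LinearMap.mkContinuous_norm_le _ zero_le_one _
    calc ‖A‖ * ‖B‖ ≤ (√(NN 𝕜 k : ℝ) / (k + 2)) * 1 := by gcongr
      _ = _ := mul_one _

/-- some factorization for every `n` -/
lemma factor_any (n : ℕ) : ∃ (A : EuclideanSpace 𝕜 (Fin n) →L[𝕜] Xspace 𝕜)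
    (B : Xspace 𝕜 →L[𝕜] EuclideanSpace 𝕜 (Fin n)), (∀ x, B (A x) = x) := by
  obtain ⟨A, B, hBA, -⟩ := factor_block (𝕜 := 𝕜) n
  have hle : n ≤ NN 𝕜 n := le_NN 𝕜 n
  let i0 : EuclideanSpace 𝕜 (Fin n) →ₗ[𝕜] EuclideanSpace 𝕜 (Fin (NN 𝕜 n)) :=
    { toFun := fun x => WithLp.toLp 2 (fun i => if h : (i:ℕ) < n then x ⟨i, h⟩ else 0)
      map_add' := fun x y => by
        ext i
        by_cases h : (i:ℕ) < n <;> simp [h]
      map_smul' := fun c x => by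
        ext i
        by_cases h : (i:ℕ) < n <;> simp [h] }
  let p0 : EuclideanSpace 𝕜 (Fin (NN 𝕜 n)) →ₗ[𝕜] EuclideanSpace 𝕜 (Fin n) :=
    { toFun := fun x => WithLp.toLp 2 (fun i => x (Fin.castLE hle i))
      map_add' := fun _ _ => rfl
      map_smul' := fun _ _ => rfl }
  refine ⟨A.comp (LinearMap.toContinuousLinearMap i0), (LinearMap.toContinuousLinearMap p0).comp B, ?_⟩
  intro x
  change p0 (B (A (i0 x))) = x
  rw [hBA]
  ext i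
  change (if h : ((Fin.castLE hle i : Fin (NN 𝕜 n)) : ℕ) < n then x ⟨_, h⟩ else 0) = x i
  have h : ((Fin.castLE hle i : Fin (NN 𝕜 n)) : ℕ) < n := i.2
  rw [dif_pos h]
  rfl

theorem Xspace_typeE : IsTypeE 𝕜 (Xspace 𝕜) := by
  have h : ∀ n : ℕ, ∃ AB : (EuclideanSpace 𝕜 (Fin n) →L[𝕜] Xspace 𝕜) ×
      (Xspace 𝕜 →L[𝕜] EuclideanSpace 𝕜 (Fin n)), (∀ x, AB.2 (AB.1 x) = x) ∧
      ∀ k, NN 𝕜 k = n → ‖AB.1‖ * ‖AB.2‖ ≤ √(n : ℝ) / (k + 2) := by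
    intro n
    by_cases hn : ∃ k, NN 𝕜 k = n
    · obtain ⟨k, rfl⟩ := hn
      obtain ⟨A, B, h1, h2⟩ := factor_block (𝕜 := 𝕜) k
      refine ⟨(A, B), h1, fun k' hk' => ?_⟩
      have : k' = k := (NN_strictMono 𝕜).injective hk'
      rw [this]; exact h2
    · obtain ⟨A, B, h1⟩ := factor_any (𝕜 := 𝕜) n
      exact ⟨(A, B), h1, fun k hk => absurd ⟨k, hk⟩ hn⟩
  choose AB h1 h2 using h
  refine ⟨?_, fun n => (AB n).1, fun n => (AB n).2, fun n _ => h1 n, ?_⟩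
  · intro hfd
    set n := Module.finrank 𝕜 (Xspace 𝕜) + 1
    have hinj : Function.Injective (AB n).1.toLinearMap := by
      intro x y hxy
      have : (AB n).2 ((AB n).1 x) = (AB n).2 ((AB n).1 y) := congrArg _ hxy
      rwa [h1, h1] at this
    have h3 := LinearMap.finrank_le_finrank_of_injective hinj
    rw [finrank_euclideanSpace_fin] at h3
    omega
  intro ε hε
  rw [frequently_atTop]
  intro a
  obtain ⟨m, hm⟩ := exists_nat_gt (1 / ε)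
  set k := max a m
  refine ⟨NN 𝕜 k, (le_max_left a m).trans (le_NN 𝕜 k), ?_⟩
  have hk : 1 / ε < (k : ℝ) + 2 := by
    have : (m : ℝ) ≤ k := by exact_mod_cast le_max_right a m
    linarith
  have hNpos : (0:ℝ) < NN 𝕜 k := by
    have : 0 < NN 𝕜 k := by unfold NN; positivity
    exact_mod_cast this
  calc ‖(AB (NN 𝕜 k)).1‖ * ‖(AB (NN 𝕜 k)).2‖ ≤ √(NN 𝕜 k : ℝ) / (k + 2) := h2 _ k rfl
    _ < ε * √(NN 𝕜 k : ℝ) := by
      rw [div_lt_iff₀ (by positivity)]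
      have h3 : 1 < ε * ((k:ℝ) + 2) := by
        rw [div_lt_iff₀ hε] at hk
        linarith
      have h4 : 0 < √(NN 𝕜 k : ℝ) := Real.sqrt_pos.2 hNpos
      nlinarith

end Net

end Pool.Agent.Lib.MP_02a0e4_an
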