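import Mathlib

/-!
Gaussian Poincaré-type inequality for Lipschitz functions (Maurey-Pisier rotation argument).
-/

open MeasureTheory ProbabilityTheory Filter
open scoped Topology NNReal ENNReal Real

namespace Pool.Agent.Lib.MP_02a0e4_an

/-- The standard Gaussian product measure on `Fin n → ℝ` is absolutely continuous. -/
lemma pi_gaussian_ac (n : ℕ) :
    Measure.pi (fun _ : Fin n => gaussianReal 0 1) ≪ Measure.pi (fun _ : Fin n => (volume : Measure ℝ)) := by
  induction n with
  | zero =>
    have h1 : Measure.pi (fun _ : Fin 0 => gaussianReal 0 1) = Measure.dirac (fun i => i.elim0) := by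
      exact Measure.pi_of_empty _ _
    have h2 : Measure.pi (fun _ : Fin 0 => (volume : Measure ℝ)) = Measure.dirac (fun i => i.elim0) := by
      exact Measure.pi_of_empty _ _
    rw [h1, h2]
  | succ n ih =>
    have e1 := (measurePreserving_piFinSuccAbove (fun _ : Fin (n+1) => gaussianReal 0 1) 0)
    have e2 := (measurePreserving_piFinSuccAbove (fun _ : Fin (n+1) => (volume : Measure ℝ)) 0)
    have hac : (gaussianReal 0 1).prod (Measure.pi (fun _ : Fin n => gaussianReal 0 1)) ≪
        (volume : Measure ℝ).prod (Measure.pi (fun _ : Fin n => (volume : Measure ℝ))) :=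
      Measure.AbsolutelyContinuous.prod (gaussianReal_absolutelyContinuous 0 one_ne_zero) ih
    refine Measure.AbsolutelyContinuous.mk fun s hs h2s => ?_
    have hs' : MeasurableSet ((MeasurableEquiv.piFinSuccAbove (fun _ : Fin (n+1) => ℝ) 0).symm ⁻¹' s) :=
      (MeasurableEquiv.piFinSuccAbove (fun _ : Fin (n+1) => ℝ) 0).symm.measurable hs
    have key : s = (MeasurableEquiv.piFinSuccAbove (fun _ : Fin (n+1) => ℝ) 0) ⁻¹'
        ((MeasurableEquiv.piFinSuccAbove (fun _ : Fin (n+1) => ℝ) 0).symm ⁻¹' s) := by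
      ext x; simp
    rw [key, e1.measure_preimage hs'.nullMeasurableSet]
    rw [key, e2.measure_preimage hs'.nullMeasurableSet] at h2s
    exact hac h2s

variable {V : Type*} [NormedAddCommGroup V] [InnerProductSpace ℝ V] [FiniteDimensional ℝ V]
  [MeasurableSpace V] [BorelSpace V]

lemma stdGaussian_ac : stdGaussian V ≪ (volume : Measure V) := by
  set b := stdOrthonormalBasis ℝ V
  set e := b.measurableEquiv
  have hvol : MeasurePreserving e.symm := b.measurePreserving_measurableEquiv.symm
  have h1 : stdGaussian V =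
      (Measure.pi (fun _ : Fin (Module.finrank ℝ V) ↦ gaussianReal 0 1)).map
        (fun x ↦ ∑ i, x i • b i) := rfl
  have h2 : (fun x : Fin (Module.finrank ℝ V) → ℝ ↦ ∑ i, x i • b i) =
      e.symm ∘ (WithLp.toLp 2) := by
    funext x
    simp only [Function.comp_apply, e]
    exact b.sum_repr_symm (WithLp.toLp 2 x)
  rw [h1, h2]
  have h3 : Measurable (e.symm ∘ (WithLp.toLp 2) : (Fin (Module.finrank ℝ V) → ℝ) → V) := by
    exact e.symm.measurable.comp (by fun_prop)
  refine Measure.AbsolutelyContinuous.mk fun s hs h2s => ?_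
  rw [Measure.map_apply h3 hs]
  apply pi_gaussian_ac
  have h4 : MeasurePreserving (e.symm ∘ (WithLp.toLp 2) : (Fin (Module.finrank ℝ V) → ℝ) → V)
      (Measure.pi (fun _ => volume)) volume := by
    refine hvol.comp ?_
    exact (PiLp.volume_preserving_toLp (Fin (Module.finrank ℝ V)))
  rw [h4.measure_preimage hs.nullMeasurableSet]
  exact h2s

/-- Rotation invariance of the product of two standard Gaussians. -/
lemma rot_inv (θ : ℝ) :
    MeasurePreserving (ContinuousLinearMap.rotation (E := V) θ)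
      ((stdGaussian V).prod (stdGaussian V)) ((stdGaussian V).prod (stdGaussian V)) := by
  refine ⟨(ContinuousLinearMap.rotation (E := V) θ).continuous.measurable, ?_⟩
  exact IsGaussian.map_rotation_eq_self (by simp) θ

lemma memLp_norm_prod :
    Integrable (fun p : V × V => (‖p.1‖ + ‖p.2‖)^2) ((stdGaussian V).prod (stdGaussian V)) := by
  have h0 : MemLp (id : V → V) 2 (stdGaussian V) := IsGaussian.memLp_two_id
  have h1 : MemLp (fun p : V × V => ‖p.1‖) 2 ((stdGaussian V).prod (stdGaussian V)) := by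
    have := h0.norm.comp_measurePreserving (measurePreserving_fst (μ := stdGaussian V) (ν := stdGaussian V))
    exact this
  have h2 : MemLp (fun p : V × V => ‖p.2‖) 2 ((stdGaussian V).prod (stdGaussian V)) := by
    have := h0.norm.comp_measurePreserving (measurePreserving_snd (μ := stdGaussian V) (ν := stdGaussian V))
    exact this
  exact (h1.add h2).integrable_sq

/-- Step 1 of the rotation argument. -/
lemma rot_step {f : V → ℝ} {L : ℝ≥0} (hf : LipschitzWith L f) (N : ℕ) (hN : 0 < N) :
    ∫ p : V × V, (f p.1 - f p.2)^2 ∂((stdGaussian V).prod (stdGaussian V)) ≤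
    ∫ p : V × V, ((N : ℝ) * (f (Real.cos (π / 2 / N) • p.1 + Real.sin (π / 2 / N) • p.2) - f p.1))^2
      ∂((stdGaussian V).prod (stdGaussian V)) := by
  set ν := (stdGaussian V).prod (stdGaussian V)
  set h : ℝ := π / 2 / N
  set F : ℕ → V × V → ℝ := fun j p => f ((ContinuousLinearMap.rotation (j * h) p).1)
  have hfc : Continuous f := hf.continuous
  have hFc : ∀ j, Continuous (F j) := fun j =>
    hfc.comp (continuous_fst.comp (ContinuousLinearMap.rotation (j * h)).continuous)
  have hNh : (N : ℝ) * h = π / 2 := by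
    simp only [h]; field_simp
  have hF0 : ∀ p, F 0 p = f p.1 := by
    intro p; simp [F, ContinuousLinearMap.rotation_apply]
  have hFN : ∀ p, F N p = f p.2 := by
    intro p; simp only [F, hNh, ContinuousLinearMap.rotation_apply]; simp
  -- increments
  set D : V × V → ℝ := fun p => F 1 p - F 0 p
  have hinc : ∀ j p, F (j+1) p - F j p = D (ContinuousLinearMap.rotation (j * h) p) := by
    intro j p
    simp only [D, F, ContinuousLinearMap.rotation_apply]
    have e1 : ((j + 1 : ℕ) : ℝ) * h = j * h + h := by push_cast; ring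
    rw [e1, Real.cos_add, Real.sin_add]
    congr 2
    · simp only [Nat.cast_one, one_mul]
      module
    · simp
  have hLip : ∀ p : V × V, ∀ j, |F j p - f 0| ≤ L * (‖p.1‖ + ‖p.2‖) := by
    intro p j
    have := hf.dist_le_mul ((ContinuousLinearMap.rotation (j * h) p).1) 0
    rw [Real.dist_eq, dist_zero_right] at this
    refine this.trans ?_
    gcongr
    rw [ContinuousLinearMap.rotation_apply]
    refine (norm_add_le _ _).trans ?_
    rw [norm_smul, norm_smul]
    have c1 : ‖Real.cos (j * h)‖ ≤ 1 := Real.abs_cos_le_one _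
    have c2 : ‖Real.sin (j * h)‖ ≤ 1 := Real.abs_sin_le_one _
    nlinarith [norm_nonneg p.1, norm_nonneg p.2]
  have hdom : ∀ j, ∀ p, ‖(F (j+1) p - F j p)^2‖ ≤ (4 * L^2 : ℝ) * (‖p.1‖ + ‖p.2‖)^2 := by
    intro j p
    have a1 := hLip p (j+1)
    have a2 := hLip p j
    have : |F (j+1) p - F j p| ≤ 2 * (L * (‖p.1‖ + ‖p.2‖)) := by
      have : F (j+1) p - F j p = (F (j+1) p - f 0) - (F j p - f 0) := by ring
      rw [this]
      exact (abs_sub _ _).trans (by linarith)
    rw [Real.norm_eq_abs, abs_pow]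
    calc |F (j+1) p - F j p|^2 ≤ (2 * (L * (‖p.1‖ + ‖p.2‖)))^2 := by gcongr
      _ = _ := by ring
  have hint : ∀ j, Integrable (fun p => (F (j+1) p - F j p)^2) ν := by
    intro j
    refine Integrable.mono' (memLp_norm_prod.const_mul (4 * L^2 : ℝ)) ?_ (ae_of_all _ (hdom j))
    exact (((hFc _).sub (hFc _)).pow 2).aestronglyMeasurable
  have heq : ∀ j, ∫ p, (F (j+1) p - F j p)^2 ∂ν = ∫ p, (D p)^2 ∂ν := by
    intro j
    have h3 : ∫ p, (D (ContinuousLinearMap.rotation (j * h) p))^2 ∂ν = ∫ p, (D p)^2 ∂ν := by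
      have hD : AEStronglyMeasurable (fun p => (D p)^2) (ν.map (ContinuousLinearMap.rotation (E := V) (j * h))) :=
        (((hFc _).sub (hFc _)).pow 2).aestronglyMeasurable
      rw [← integral_map (μ := ν) (φ := ContinuousLinearMap.rotation (E := V) (j * h)) (f := fun p => (D p)^2)
        (rot_inv (V := V) (j * h)).measurable.aemeasurable hD, (rot_inv (V := V) (j * h)).map_eq]
    rw [← h3]
    congr 1
    ext p
    rw [hinc j p]
  have hsum : ∀ p, (f p.1 - f p.2)^2 ≤ N * ∑ j ∈ Finset.range N, (F (j+1) p - F j p)^2 := by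
    intro p
    have h1 : f p.1 - f p.2 = - ∑ j ∈ Finset.range N, (F (j+1) p - F j p) := by
      rw [Finset.sum_range_sub (fun j => F j p), hF0, hFN]; ring
    rw [h1, neg_sq]
    have := sq_sum_le_card_mul_sum_sq (s := Finset.range N) (f := fun j => F (j+1) p - F j p)
    simpa using this
  calc ∫ p : V × V, (f p.1 - f p.2)^2 ∂ν
      ≤ ∫ p, N * ∑ j ∈ Finset.range N, (F (j+1) p - F j p)^2 ∂ν := by
        refine integral_mono_of_nonneg (ae_of_all _ fun p => sq_nonneg _) ?_ (ae_of_all _ hsum)
        exact (integrable_finsetSum _ (fun j _ => hint j)).const_mul _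
    _ = N * ∑ j ∈ Finset.range N, ∫ p, (F (j+1) p - F j p)^2 ∂ν := by
        rw [integral_const_mul, integral_finsetSum _ (fun j _ => hint j)]
    _ = N * (N * ∫ p, (D p)^2 ∂ν) := by
        simp [heq]
    _ = ∫ p, ((N : ℝ) * (f (Real.cos h • p.1 + Real.sin h • p.2) - f p.1))^2 ∂ν := by
        rw [← integral_const_mul, ← integral_const_mul]
        congr 1
        ext p
        simp only [D, F, ContinuousLinearMap.rotation_apply]
        simp
        ring

/-- Second moment of a functional under the standard Gaussian. -/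
lemma integral_dual_sq (ℓ : StrongDual ℝ V) : ∫ y, (ℓ y)^2 ∂(stdGaussian V) = ‖ℓ‖^2 := by
  have h1 := variance_dual_stdGaussian ℓ
  have h2 : MemLp (fun y => ℓ y) 2 (stdGaussian V) := by
    have h0 : MemLp (id : V → V) 2 (stdGaussian V) := IsGaussian.memLp_two_id
    exact ℓ.comp_memLp' h0
  rw [variance_eq_sub h2] at h1
  simp only [integral_strongDual_stdGaussian] at h1
  simpa using h1

/-- The Gaussian Poincaré inequality for Lipschitz functions, in doubled form. -/
theorem poincare {f : V → ℝ} {L : ℝ≥0} (hf : LipschitzWith L f) :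
    ∫ p : V × V, (f p.1 - f p.2)^2 ∂((stdGaussian V).prod (stdGaussian V)) ≤ (π / 2)^2 * (L : ℝ)^2 := by
  set ν := (stdGaussian V).prod (stdGaussian V) with hν
  -- the approximants
  set G : ℕ → V × V → ℝ := fun N p =>
    ((N + 1 : ℕ) * (f (Real.cos (π / 2 / (N + 1 : ℕ)) • p.1 + Real.sin (π / 2 / (N + 1 : ℕ)) • p.2) - f p.1))^2
  set g : V × V → ℝ := fun p => ((π / 2) * fderiv ℝ f p.1 p.2)^2
  have hfc : Continuous f := hf.continuous
  have hGm : ∀ N, AEStronglyMeasurable (G N) ν := by
    intro N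
    have : Continuous (G N) := by
      simp only [G]
      fun_prop
    exact this.aestronglyMeasurable
  -- scalar limits
  have hh : Tendsto (fun N : ℕ => π / 2 / ((N + 1 : ℕ) : ℝ)) atTop (𝓝 0) := by
    exact (tendsto_const_div_atTop_nhds_zero_nat (π / 2)).comp (tendsto_add_atTop_nat 1)
  have hdiff : ∀ᵐ x ∂(stdGaussian V), DifferentiableAt ℝ f x :=
    stdGaussian_ac.ae_le hf.ae_differentiableAt
  have hlim : ∀ᵐ p ∂ν, Tendsto (fun N => G N p) atTop (𝓝 (g p)) := by
    have : ∀ᵐ p ∂ν, DifferentiableAt ℝ f p.1 :=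
      (measurePreserving_fst (μ := stdGaussian V) (ν := stdGaussian V)).quasiMeasurePreserving.ae hdiff
    filter_upwards [this] with p hp
    -- the curve
    have hcurve : HasDerivAt (fun t : ℝ => f (Real.cos t • p.1 + Real.sin t • p.2)) (fderiv ℝ f p.1 p.2) 0 := by
      have h1 : HasDerivAt (fun t : ℝ => Real.cos t • p.1 + Real.sin t • p.2) p.2 0 := by
        have hc := (Real.hasDerivAt_cos 0).smul_const p.1
        have hs := (Real.hasDerivAt_sin 0).smul_const p.2
        have h12 := hc.add hs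
        have h13 : HasDerivAt (fun t : ℝ => Real.cos t • p.1 + Real.sin t • p.2)
            (-Real.sin 0 • p.1 + Real.cos 0 • p.2) 0 := h12
        simpa using h13
      have h2 : HasFDerivAt f (fderiv ℝ f p.1) (Real.cos (0:ℝ) • p.1 + Real.sin (0:ℝ) • p.2) := by
        simpa using hp.hasFDerivAt
      exact h2.comp_hasDerivAt 0 h1
    have h3 := hcurve.tendsto_slope_zero
    have h4 : Tendsto (fun N : ℕ => π / 2 / ((N + 1 : ℕ) : ℝ)) atTop (𝓝[≠] 0) := by
      rw [tendsto_nhdsWithin_iff]
      refine ⟨hh, Eventually.of_forall fun N => ?_⟩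
      simp only [Set.mem_compl_iff, Set.mem_singleton_iff]
      positivity
    have h5 := h3.comp h4
    have h6 : Tendsto (fun N : ℕ => ((π / 2) *
        ((π / 2 / ((N + 1 : ℕ) : ℝ))⁻¹ • (f (Real.cos (0 + π / 2 / ((N + 1 : ℕ) : ℝ)) • p.1 +
          Real.sin (0 + π / 2 / ((N + 1 : ℕ) : ℝ)) • p.2) - f (Real.cos 0 • p.1 + Real.sin 0 • p.2))))^2)
          atTop (𝓝 (g p)) := ((h5.const_mul (π / 2)).pow 2)
    refine h6.congr fun N => ?_
    simp only [G, zero_add, Real.cos_zero, Real.sin_zero, one_smul, zero_smul, add_zero, smul_eq_mul]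
    congr 1
    have hN : ((N + 1 : ℕ) : ℝ) ≠ 0 := by positivity
    field_simp
  have hdom : ∀ N, ∀ᵐ p ∂ν, ‖G N p‖ ≤ ((L : ℝ)^2 * (π / 2)^2) * (‖p.1‖ + ‖p.2‖)^2 := by
    intro N
    refine ae_of_all _ fun p => ?_
    set h : ℝ := π / 2 / ((N + 1 : ℕ) : ℝ)
    have hNpos : (0:ℝ) < ((N + 1 : ℕ) : ℝ) := by positivity
    have hpos : 0 < h := by positivity
    have hNh : ((N + 1 : ℕ) : ℝ) * h = π / 2 := by simp only [h]; field_simp
    have h1 : |f (Real.cos h • p.1 + Real.sin h • p.2) - f p.1| ≤ L * (h * (‖p.1‖ + ‖p.2‖)) := by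
      have := hf.dist_le_mul (Real.cos h • p.1 + Real.sin h • p.2) p.1
      rw [Real.dist_eq, dist_eq_norm] at this
      refine this.trans ?_
      gcongr
      have e : Real.cos h • p.1 + Real.sin h • p.2 - p.1 = (Real.cos h - 1) • p.1 + Real.sin h • p.2 := by
        module
      rw [e]
      refine (norm_add_le _ _).trans ?_
      rw [norm_smul, norm_smul]
      have c2 : ‖Real.sin h‖ ≤ h := by
        rw [Real.norm_eq_abs]
        exact (Real.abs_sin_lt_abs hpos.ne').le.trans_eq (abs_of_pos hpos)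
      have c1 : ‖Real.cos h - 1‖ ≤ h := by
        have : Real.cos h - 1 = -(2 * Real.sin (h/2)^2) := by
          have := Real.cos_sq' (h/2)
          have h2 : Real.cos h = 2 * Real.cos (h/2)^2 - 1 := by
            rw [← Real.cos_two_mul]; ring_nf
          rw [h2, this]; ring
        rw [this, norm_neg, Real.norm_eq_abs, abs_of_nonneg (by positivity)]
        have h3 : |Real.sin (h/2)| ≤ h/2 :=
          (Real.abs_sin_lt_abs (by positivity)).le.trans_eq (abs_of_pos (by positivity))
        have h4 : |Real.sin (h/2)| ≤ 1 := Real.abs_sin_le_one _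
        have h5 : Real.sin (h/2)^2 = |Real.sin (h/2)| * |Real.sin (h/2)| := by
          rw [← sq, sq_abs]
        rw [h5]
        nlinarith [abs_nonneg (Real.sin (h/2))]
      nlinarith [norm_nonneg p.1, norm_nonneg p.2]
    simp only [G]
    rw [Real.norm_eq_abs, abs_pow, abs_mul, abs_of_pos hNpos]
    calc (((N + 1 : ℕ) : ℝ) * |f (Real.cos h • p.1 + Real.sin h • p.2) - f p.1|)^2
        ≤ (((N + 1 : ℕ) : ℝ) * (L * (h * (‖p.1‖ + ‖p.2‖))))^2 := by gcongr
      _ = (L * (((N + 1 : ℕ) : ℝ) * h) * (‖p.1‖ + ‖p.2‖))^2 := by ring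
      _ = _ := by rw [hNh]; ring
  have hconv := tendsto_integral_of_dominated_convergence _ hGm
    (memLp_norm_prod.const_mul ((L : ℝ)^2 * (π / 2)^2)) hdom hlim
  have hle : ∫ p : V × V, (f p.1 - f p.2)^2 ∂ν ≤ ∫ p, g p ∂ν := by
    refine ge_of_tendsto hconv (Eventually.of_forall fun N => ?_)
    exact rot_step hf (N+1) (Nat.succ_pos N)
  refine hle.trans ?_
  -- bound of the limit
  have hgm : Measurable g := by
    have h1 : Measurable (fun p : V × V => fderiv ℝ f p.1) := (measurable_fderiv ℝ f).comp measurable_fst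
    have h2 : Measurable (fun p : V × V => (fderiv ℝ f p.1) p.2) := by
      have hc : Continuous (fun q : (V →L[ℝ] ℝ) × V => q.1 q.2) := by fun_prop
      exact hc.measurable.comp (h1.prodMk measurable_snd)
    exact (h2.const_mul _).pow_const 2
  have hgnn : ∀ p, 0 ≤ g p := fun p => sq_nonneg _
  have hgb : ∀ p : V × V, g p ≤ ((L : ℝ)^2 * (π / 2)^2) * (‖p.1‖ + ‖p.2‖)^2 := by
    intro p
    have h1 : |fderiv ℝ f p.1 p.2| ≤ L * (‖p.1‖ + ‖p.2‖) := by
      have := (fderiv ℝ f p.1).le_opNorm p.2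
      have h2 : ‖fderiv ℝ f p.1‖ ≤ L := norm_fderiv_le_of_lipschitz ℝ hf
      rw [Real.norm_eq_abs] at this
      refine this.trans ?_
      have : 0 ≤ ‖fderiv ℝ f p.1‖ := norm_nonneg _
      gcongr
      linarith [norm_nonneg p.1]
    have h3 : g p = (π/2)^2 * |fderiv ℝ f p.1 p.2|^2 := by
      simp only [g, sq_abs]; ring
    rw [h3]
    have : |fderiv ℝ f p.1 p.2|^2 ≤ (L * (‖p.1‖ + ‖p.2‖))^2 := by gcongr
    nlinarith [sq_nonneg (π/2)]
  have hgint : Integrable g ν := by
    refine Integrable.mono' (memLp_norm_prod.const_mul ((L : ℝ)^2 * (π / 2)^2)) hgm.aestronglyMeasurable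
      (ae_of_all _ fun p => ?_)
    rw [Real.norm_eq_abs, abs_of_nonneg (hgnn p)]
    exact hgb p
  rw [hν, integral_prod _ hgint]
  have hinner : ∀ x, ∫ y, g (x, y) ∂(stdGaussian V) = (π/2)^2 * ‖fderiv ℝ f x‖^2 := by
    intro x
    simp only [g, mul_pow]
    rw [integral_const_mul, integral_dual_sq]
  simp_rw [hinner]
  calc ∫ x, (π / 2)^2 * ‖fderiv ℝ f x‖^2 ∂(stdGaussian V) ≤ ∫ x, (π / 2)^2 * (L:ℝ)^2 ∂(stdGaussian V) := by
        refine integral_mono_of_nonneg (ae_of_all _ fun x => by positivity) (integrable_const _)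
          (ae_of_all _ fun x => ?_)
        have h2 : ‖fderiv ℝ f x‖ ≤ L := norm_fderiv_le_of_lipschitz ℝ hf
        have : 0 ≤ ‖fderiv ℝ f x‖ := norm_nonneg _
        show (π / 2)^2 * ‖fderiv ℝ f x‖^2 ≤ (π / 2)^2 * (L:ℝ)^2
        gcongr
    _ = (π / 2)^2 * (L:ℝ)^2 := by simp

/-- Variance form. -/
theorem variance_le {f : V → ℝ} {L : ℝ≥0} (hf : LipschitzWith L f) :
    Var[f; stdGaussian V] ≤ 2 * (L : ℝ)^2 := by
  have h0 : MemLp (id : V → V) 2 (stdGaussian V) := IsGaussian.memLp_two_id
  have hfm : AEStronglyMeasurable f (stdGaussian V) := hf.continuous.aestronglyMeasurable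
  have hfL : MemLp f 2 (stdGaussian V) := by
    have h0' : MemLp (fun x : V => ‖x‖) 2 (stdGaussian V) := h0.norm
    have h0'' : MemLp (fun x : V => (L : ℝ) * ‖x‖) 2 (stdGaussian V) := h0'.const_mul (L : ℝ)
    have hc : MemLp (fun _ : V => |f 0|) 2 (stdGaussian V) := memLp_const _
    have h1 : MemLp (fun x : V => |f 0| + (L : ℝ) * ‖x‖) 2 (stdGaussian V) := hc.add h0''
    refine h1.mono hfm (ae_of_all _ fun x => ?_)
    have := hf.dist_le_mul x 0
    rw [Real.dist_eq, dist_zero_right] at this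
    rw [Real.norm_eq_abs, Real.norm_eq_abs]
    have h3 : |f x| ≤ |f 0| + L * ‖x‖ := by
      have h4 : f x = f 0 + (f x - f 0) := by ring
      rw [h4]
      exact (abs_add_le _ _).trans (by linarith)
    exact h3.trans (le_abs_self _)
  have hf1 : Integrable f (stdGaussian V) := hfL.integrable (by norm_num)
  have hf2 : Integrable (fun x => (f x)^2) (stdGaussian V) := hfL.integrable_sq
  have h1 := poincare hf
  have h2 : ∫ p : V × V, (f p.1 - f p.2)^2 ∂((stdGaussian V).prod (stdGaussian V)) =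
      2 * Var[f; stdGaussian V] := by
    rw [variance_eq_sub hfL]
    have i1 : Integrable (fun p : V × V => (f p.1)^2) ((stdGaussian V).prod (stdGaussian V)) :=
      hf2.comp_fst _
    have i2 : Integrable (fun p : V × V => (f p.2)^2) ((stdGaussian V).prod (stdGaussian V)) :=
      hf2.comp_snd _
    have i3 : Integrable (fun p : V × V => f p.1 * f p.2) ((stdGaussian V).prod (stdGaussian V)) :=
      hf1.mul_prod hf1
    have e : (fun p : V × V => (f p.1 - f p.2)^2) =
        fun p => (f p.1)^2 + (f p.2)^2 - 2 * (f p.1 * f p.2) := by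
      ext p; ring
    have i12 : Integrable (fun p : V × V => (f p.1)^2 + (f p.2)^2)
        ((stdGaussian V).prod (stdGaussian V)) := i1.add i2
    rw [e, integral_sub i12 (i3.const_mul 2), integral_add i1 i2, integral_const_mul,
      integral_prod_mul]
    have e1 : ∫ p : V × V, (f p.1)^2 ∂((stdGaussian V).prod (stdGaussian V)) =
        ∫ x, (f x)^2 ∂(stdGaussian V) := by
      rw [integral_prod _ i1]; simp
    have e2 : ∫ p : V × V, (f p.2)^2 ∂((stdGaussian V).prod (stdGaussian V)) =
        ∫ x, (f x)^2 ∂(stdGaussian V) := by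
      rw [integral_prod _ i2]; simp
    rw [e1, e2]
    simp only [Pi.pow_apply]
    ring
  rw [h2] at h1
  have h3 : π < 4 := Real.pi_lt_four
  have h4 : 0 < π := Real.pi_pos
  have h5 : (π / 2)^2 ≤ 4 := by nlinarith
  nlinarith [sq_nonneg (L:ℝ)]

end Pool.Agent.Lib.MP_02a0e4_an
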