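import Pool.Agent.Lib.MP_02a0e4_an.Poincare

/-!
Random Gaussian operators: given an operator `T` from a Euclidean space into a normed space which is
not too degenerate, restrict to a random small-dimensional subspace to obtain an almost isometric
copy of Euclidean space (a variance version of the Milman argument).
-/

open MeasureTheory ProbabilityTheory Filter
open scoped Topology NNReal ENNReal Real

namespace Pool.Agent.Lib.MP_02a0e4_an

section Coisometry

variable {V : Type*} [NormedAddCommGroup V] [InnerProductSpace ℝ V] [FiniteDimensional ℝ V]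
  [MeasurableSpace V] [BorelSpace V]
variable {V' : Type*} [NormedAddCommGroup V'] [InnerProductSpace ℝ V'] [FiniteDimensional ℝ V']
  [MeasurableSpace V'] [BorelSpace V']

lemma map_coisometry (T : V →L[ℝ] V') (S : V' →L[ℝ] V) (hT : ∀ x, ‖T x‖ ≤ ‖x‖)
    (hS : ∀ y, ‖S y‖ ≤ ‖y‖) (hTS : ∀ y, T (S y) = y) :
    (stdGaussian V).map T = stdGaussian V' := by
  have : IsProbabilityMeasure ((stdGaussian V).map T) :=
    Measure.isProbabilityMeasure_map T.continuous.measurable.aemeasurable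
  apply Measure.ext_of_charFunDual
  ext L
  rw [charFunDual_map, charFunDual_stdGaussian, charFunDual_stdGaussian]
  have h1 : ‖L.comp T‖ ≤ ‖L‖ := by
    refine (L.comp T).opNorm_le_bound (norm_nonneg _) fun x => ?_
    exact (L.le_opNorm _).trans (mul_le_mul_of_nonneg_left (hT x) (norm_nonneg _))
  have h2 : ‖L‖ ≤ ‖L.comp T‖ := by
    refine L.opNorm_le_bound (norm_nonneg _) fun y => ?_
    have : L y = (L.comp T) (S y) := by simp [hTS]
    rw [this]
    exact ((L.comp T).le_opNorm _).trans (mul_le_mul_of_nonneg_left (hS y) (norm_nonneg _))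
  rw [le_antisymm h1 h2]

/-- The mean of the norm of a standard Gaussian vector. -/
lemma integral_norm_sq : ∫ x, ‖x‖^2 ∂(stdGaussian V) = Module.finrank ℝ V := by
  set b := stdOrthonormalBasis ℝ V
  have h1 : ∀ x : V, ‖x‖^2 = ∑ i, (innerSL ℝ (b i) x)^2 := by
    intro x
    have := b.sum_sq_norm_inner_right x
    simp only [innerSL_apply_apply]
    rw [← this]
    refine Finset.sum_congr rfl fun i _ => ?_
    rw [Real.norm_eq_abs, sq_abs]
  simp_rw [h1]
  rw [integral_finsetSum]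
  · simp_rw [integral_dual_sq, innerSL_apply_norm]
    simp
  · intro i _
    have h0 : MemLp (id : V → V) 2 (stdGaussian V) := IsGaussian.memLp_two_id
    have := (innerSL ℝ (b i)).comp_memLp' h0
    exact this.integrable_sq

lemma integral_norm_lower :
    Real.sqrt ((Module.finrank ℝ V : ℝ) - 2) ≤ ∫ x, ‖x‖ ∂(stdGaussian V) := by
  have h0 : MemLp (id : V → V) 2 (stdGaussian V) := IsGaussian.memLp_two_id
  have h0' : MemLp (fun x : V => ‖x‖) 2 (stdGaussian V) := h0.norm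
  have h1 : Var[fun x : V => ‖x‖; stdGaussian V] ≤ 2 * ((1:ℝ≥0) : ℝ)^2 :=
    variance_le (lipschitzWith_one_norm (E := V))
  rw [variance_eq_sub h0'] at h1
  have h2 : ∫ x, ((fun x : V => ‖x‖)^2) x ∂(stdGaussian V) = Module.finrank ℝ V := by
    simpa using integral_norm_sq (V := V)
  rw [h2] at h1
  have h3 : 0 ≤ ∫ x, ‖x‖ ∂(stdGaussian V) := integral_nonneg fun x => norm_nonneg _
  apply Real.sqrt_le_iff.2
  refine ⟨h3, ?_⟩
  simp only [NNReal.coe_one, one_pow, mul_one] at h1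
  linarith

end Coisometry

section RandomOperator

variable {𝕜 : Type*} [RCLike 𝕜]

/-- `(w_j) ↦ ∑ x_j w_j` -/
noncomputable def Phi {k d : ℕ} (x : EuclideanSpace 𝕜 (Fin k)) :
    PiLp 2 (fun _ : Fin k => EuclideanSpace 𝕜 (Fin d)) →L[ℝ] EuclideanSpace 𝕜 (Fin d) :=
  LinearMap.toContinuousLinearMap
    { toFun := fun w => ∑ j, x j • w j
      map_add' := fun w w' => by simp [Finset.sum_add_distrib]
      map_smul' := fun c w => by
        simp only [PiLp.smul_apply, RingHom.id_apply, Finset.smul_sum]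
        exact Finset.sum_congr rfl fun j _ => smul_comm _ _ _ }

lemma Phi_apply {k d : ℕ} (x : EuclideanSpace 𝕜 (Fin k))
    (w : PiLp 2 (fun _ : Fin k => EuclideanSpace 𝕜 (Fin d))) :
    Phi x w = ∑ j, x j • w j := rfl

noncomputable def PsiAux {k d : ℕ} (x : EuclideanSpace 𝕜 (Fin k)) :
    EuclideanSpace 𝕜 (Fin d) →L[ℝ] PiLp 2 (fun _ : Fin k => EuclideanSpace 𝕜 (Fin d)) :=
  LinearMap.toContinuousLinearMap
    { toFun := fun y => WithLp.toLp 2 (fun j => (starRingEnd 𝕜 (x j)) • y)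
      map_add' := fun w w' => by
        ext j; simp
      map_smul' := fun c w => by
        ext j i
        simp only [PiLp.smul_apply, RingHom.id_apply]
        exact smul_comm _ _ _ }

lemma norm_Phi_le {k d : ℕ} (x : EuclideanSpace 𝕜 (Fin k)) (hx : ‖x‖ = 1)
    (w : PiLp 2 (fun _ : Fin k => EuclideanSpace 𝕜 (Fin d))) : ‖Phi x w‖ ≤ ‖w‖ := by
  rw [Phi_apply]
  have h1 : ‖∑ j, x j • w j‖ ≤ ∑ j, ‖x j‖ * ‖w j‖ := by
    refine (norm_sum_le _ _).trans (Finset.sum_le_sum fun j _ => (norm_smul _ _).le)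
  have h2 := Finset.sum_mul_sq_le_sq_mul_sq Finset.univ (fun j => ‖x j‖) (fun j => ‖w j‖)
  have h3 : ∑ j, ‖x j‖^2 = 1 := by
    have := EuclideanSpace.norm_sq_eq x
    rw [hx] at this; simpa using this.symm
  have h4 : ∑ j, ‖w j‖^2 = ‖w‖^2 := by
    rw [PiLp.norm_sq_eq_of_L2]
  rw [h3, h4, one_mul] at h2
  refine h1.trans (abs_le_of_sq_le_sq' h2 (norm_nonneg _)).2

lemma norm_PsiAux {k d : ℕ} (x : EuclideanSpace 𝕜 (Fin k)) (hx : ‖x‖ = 1)
    (y : EuclideanSpace 𝕜 (Fin d)) : ‖PsiAux x y‖ = ‖y‖ := by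
  have h3 : ∑ j, ‖x j‖^2 = 1 := by
    have := EuclideanSpace.norm_sq_eq x
    rw [hx] at this; simpa using this.symm
  have h4 : ‖PsiAux x y‖^2 = ‖y‖^2 := by
    rw [PiLp.norm_sq_eq_of_L2]
    have : ∀ j, ‖(PsiAux x y) j‖^2 = ‖x j‖^2 * ‖y‖^2 := by
      intro j
      have : (PsiAux x y) j = (starRingEnd 𝕜 (x j)) • y := rfl
      rw [this, norm_smul, RCLike.norm_conj, mul_pow]
    simp_rw [this]
    rw [← Finset.sum_mul, h3, one_mul]
  exact (pow_left_inj₀ (norm_nonneg _) (norm_nonneg _) two_ne_zero).1 h4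

lemma Phi_PsiAux {k d : ℕ} (x : EuclideanSpace 𝕜 (Fin k)) (hx : ‖x‖ = 1)
    (y : EuclideanSpace 𝕜 (Fin d)) : Phi x (PsiAux x y) = y := by
  rw [Phi_apply]
  have : ∀ j, x j • (PsiAux x y) j = ((‖x j‖^2 : ℝ) : 𝕜) • y := by
    intro j
    have : (PsiAux x y) j = (starRingEnd 𝕜 (x j)) • y := rfl
    rw [this, smul_smul, RCLike.mul_conj]
    norm_cast
  simp_rw [this]
  rw [← Finset.sum_smul]
  have h3 : ∑ j, ‖x j‖^2 = 1 := by
    have := EuclideanSpace.norm_sq_eq x
    rw [hx] at this; simpa using this.symm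
  rw [← RCLike.ofReal_sum, h3]
  simp

lemma map_Phi {k d : ℕ} (x : EuclideanSpace 𝕜 (Fin k)) (hx : ‖x‖ = 1) :
    (stdGaussian (PiLp 2 (fun _ : Fin k => EuclideanSpace 𝕜 (Fin d)))).map (Phi x) =
      stdGaussian (EuclideanSpace 𝕜 (Fin d)) :=
  map_coisometry (Phi x) (PsiAux x) (norm_Phi_le x hx) (fun y => (norm_PsiAux x hx y).le)
    (Phi_PsiAux x hx)

variable {X : Type*} [NormedAddCommGroup X] [NormedSpace 𝕜 X]

/-- Concentration of `‖T g‖` for a Gaussian vector `g`. -/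
lemma exists_good {k d : ℕ} (T : EuclideanSpace 𝕜 (Fin d) →L[𝕜] X) {a b : ℝ} (ha : 0 ≤ a) (hb : 0 < b)
    (hTa : ∀ x, ‖T x‖ ≤ a * ‖x‖) (hTb : ∀ x, ‖x‖ ≤ b * ‖T x‖)
    (N : Finset (EuclideanSpace 𝕜 (Fin k))) (hN : ∀ x ∈ N, ‖x‖ = 1)
    {δ : ℝ} (hδ : 0 < δ)
    (hd : 2 * (a * b)^2 * N.card < δ^2 * ((d : ℝ) - 2)) :
    ∃ m : ℝ, 0 < m ∧ ∃ J : EuclideanSpace 𝕜 (Fin k) →L[𝕜] EuclideanSpace 𝕜 (Fin d),
      (∀ x ∈ N, |‖T (J x)‖ - m| ≤ δ * m) := by
  set V := EuclideanSpace 𝕜 (Fin d)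
  set W := PiLp 2 (fun _ : Fin k => V)
  -- the function
  set f : V → ℝ := fun x => ‖T x‖
  have hLip : LipschitzWith (Real.toNNReal a) f := by
    refine LipschitzWith.of_dist_le_mul fun x y => ?_
    rw [Real.coe_toNNReal a ha, Real.dist_eq, dist_eq_norm]
    refine (abs_norm_sub_norm_le _ _).trans ?_
    rw [← map_sub]
    exact hTa _
  have hvar : Var[f; stdGaussian V] ≤ 2 * a^2 := by
    have := variance_le hLip
    rwa [Real.coe_toNNReal a ha] at this
  set m := ∫ x, f x ∂(stdGaussian V)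
  have hid : MemLp (id : V → V) 2 (stdGaussian V) := IsGaussian.memLp_two_id
  have hfm : AEStronglyMeasurable f (stdGaussian V) := hLip.continuous.aestronglyMeasurable
  have hfL : MemLp f 2 (stdGaussian V) := by
    have h0' : MemLp (fun x : V => ‖x‖) 2 (stdGaussian V) := hid.norm
    have h0'' : MemLp (fun x : V => a * ‖x‖) 2 (stdGaussian V) := h0'.const_mul a
    refine h0''.mono hfm (ae_of_all _ fun x => ?_)
    rw [Real.norm_eq_abs, abs_of_nonneg (norm_nonneg _)]
    exact (hTa x).trans (le_abs_self _)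
  have hfI : Integrable f (stdGaussian V) := hfL.integrable (by norm_num)
  have hnI : Integrable (fun x : V => ‖x‖) (stdGaussian V) := hid.norm.integrable (by norm_num)
  -- dimension
  have hdim : (d : ℝ) ≤ Module.finrank ℝ V := by
    have h1 : Module.finrank ℝ 𝕜 * Module.finrank 𝕜 V = Module.finrank ℝ V :=
      Module.finrank_mul_finrank ℝ 𝕜 V
    have h2 : Module.finrank 𝕜 V = d := by simp [V]
    have h3 : 1 ≤ Module.finrank ℝ 𝕜 := Module.finrank_pos
    rw [← h1, h2]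
    have : d ≤ Module.finrank ℝ 𝕜 * d := Nat.le_mul_of_pos_left d h3
    exact_mod_cast this
  have hm : Real.sqrt ((d : ℝ) - 2) ≤ b * m := by
    have h1 : Real.sqrt ((d : ℝ) - 2) ≤ ∫ x, ‖x‖ ∂(stdGaussian V) :=
      (Real.sqrt_le_sqrt (by linarith)).trans (integral_norm_lower (V := V))
    have h2 : ∫ x, ‖x‖ ∂(stdGaussian V) ≤ ∫ x, b * f x ∂(stdGaussian V) :=
      integral_mono hnI (hfI.const_mul b) fun x => hTb x
    rw [integral_const_mul] at h2
    exact h1.trans h2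
  have hdpos : 0 < (d : ℝ) - 2 := by
    by_contra hcon
    push Not at hcon
    have : 0 ≤ 2 * (a * b)^2 * N.card := by positivity
    nlinarith [sq_nonneg δ]
  have hmpos : 0 < m := by
    have : 0 < Real.sqrt ((d : ℝ) - 2) := Real.sqrt_pos.2 hdpos
    by_contra hcon
    push Not at hcon
    nlinarith
  have hm2 : ((d : ℝ) - 2) ≤ b^2 * m^2 := by
    have := Real.sq_sqrt hdpos.le
    have h0 := Real.sqrt_nonneg ((d : ℝ) - 2)
    nlinarith
  refine ⟨m, hmpos, ?_⟩
  -- bad sets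
  set bad : EuclideanSpace 𝕜 (Fin k) → Set W := fun x => {w | δ * m ≤ |f (Phi x w) - m|}
  have hbad : ∀ x ∈ N, (stdGaussian W) (bad x) ≤ ENNReal.ofReal (2 * a^2 / (δ * m)^2) := by
    intro x hx
    have hx1 := hN x hx
    have h1 := meas_ge_le_variance_div_sq hfL (c := δ * m) (by positivity)
    have hset : bad x = (Phi x) ⁻¹' {v | δ * m ≤ |f v - ∫ y, f y ∂(stdGaussian V)|} := rfl
    have hms : MeasurableSet {v : V | δ * m ≤ |f v - ∫ y, f y ∂(stdGaussian V)|} := by
      apply measurableSet_le measurable_const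
      have : Continuous fun v => |f v - ∫ y, f y ∂(stdGaussian V)| := by
        exact (hLip.continuous.sub continuous_const).abs
      exact this.measurable
    rw [hset, ← Measure.map_apply (Phi x).continuous.measurable hms, map_Phi x hx1]
    refine h1.trans (ENNReal.ofReal_le_ofReal ?_)
    gcongr
  have hunion : (stdGaussian W) (⋃ x ∈ N, bad x) < 1 := by
    calc (stdGaussian W) (⋃ x ∈ N, bad x) ≤ ∑ x ∈ N, (stdGaussian W) (bad x) :=
          measure_biUnion_finset_le _ _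
      _ ≤ ∑ x ∈ N, ENNReal.ofReal (2 * a^2 / (δ * m)^2) := Finset.sum_le_sum hbad
      _ = ENNReal.ofReal (N.card * (2 * a^2 / (δ * m)^2)) := by
          rw [Finset.sum_const, nsmul_eq_mul, ENNReal.ofReal_mul (by positivity)]
          simp
      _ < 1 := by
          rw [ENNReal.ofReal_lt_one]
          rw [← mul_div_assoc, div_lt_one (by positivity)]
          have hb2 : 0 < b^2 := by positivity
          have h5 : b^2 * (N.card * (2 * a^2)) < b^2 * (δ * m)^2 := by
            calc b^2 * (N.card * (2 * a^2)) = 2 * (a * b)^2 * N.card := by ring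
              _ < δ^2 * ((d : ℝ) - 2) := hd
              _ ≤ δ^2 * (b^2 * m^2) := by gcongr
              _ = b^2 * (δ * m)^2 := by ring
          exact lt_of_mul_lt_mul_left h5 hb2.le
  obtain ⟨w, hw⟩ : ∃ w, w ∉ ⋃ x ∈ N, bad x := by
    by_contra hcon
    push Not at hcon
    have : (⋃ x ∈ N, bad x) = Set.univ := Set.eq_univ_of_forall hcon
    rw [this, measure_univ] at hunion
    exact lt_irrefl _ hunion
  -- the operator
  let J0 : EuclideanSpace 𝕜 (Fin k) →ₗ[𝕜] V :=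
    { toFun := fun x => ∑ j, x j • w j
      map_add' := fun x y => by simp [add_smul, Finset.sum_add_distrib]
      map_smul' := fun c x => by simp [Finset.smul_sum, smul_smul] }
  refine ⟨LinearMap.toContinuousLinearMap J0, fun x hx => ?_⟩
  have h1 : w ∉ bad x := fun h => hw (Set.mem_biUnion hx h)
  simp only [bad, Set.mem_ofPred_eq, not_le] at h1
  exact h1.le

/-- A finite net on the sphere controls operators on the whole space. -/
lemma exists_net (k : ℕ) {ε : ℝ} (hε : 0 < ε) (hε1 : ε ≤ 1) :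
    ∃ N : Finset (EuclideanSpace 𝕜 (Fin k)), (∀ x ∈ N, ‖x‖ = 1) ∧
      ∀ (J : EuclideanSpace 𝕜 (Fin k) →L[𝕜] X) (m : ℝ), 0 < m →
        (∀ x ∈ N, |‖J x‖ - m| ≤ (ε / 4) * m) →
        ∀ x, (1 - ε) * m * ‖x‖ ≤ ‖J x‖ ∧ ‖J x‖ ≤ (1 + ε) * m * ‖x‖ := by
  set δ := ε / 4 with hδ
  have hδpos : 0 < δ := by positivity
  obtain ⟨t, ht, htf, hcov⟩ := (isCompact_sphere (0 : EuclideanSpace 𝕜 (Fin k)) 1).finite_cover_balls hδpos
  refine ⟨htf.toFinset, fun x hx => by simpa using ht (htf.mem_toFinset.1 hx), ?_⟩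
  intro J m hm hJ
  set M := ‖J‖
  have hM0 : 0 ≤ M := norm_nonneg _
  have hnear : ∀ y : EuclideanSpace 𝕜 (Fin k), ‖y‖ = 1 → ∃ x ∈ htf.toFinset, ‖y - x‖ < δ := by
    intro y hy
    have : y ∈ ⋃ x ∈ t, Metric.ball x δ := hcov (by simpa using hy)
    simp only [Set.mem_iUnion, Metric.mem_ball, exists_prop] at this
    obtain ⟨x, hx, hd⟩ := this
    exact ⟨x, htf.mem_toFinset.2 hx, by rwa [dist_eq_norm] at hd⟩
  have hup : ∀ y : EuclideanSpace 𝕜 (Fin k), ‖y‖ = 1 → ‖J y‖ ≤ (1 + δ) * m + δ * M := by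
    intro y hy
    obtain ⟨x, hx, hd⟩ := hnear y hy
    have h1 := (abs_le.1 (hJ x hx)).2
    have h2 : ‖J y‖ ≤ ‖J x‖ + ‖J (y - x)‖ := by
      have : J y = J x + J (y - x) := by rw [← map_add]; simp
      rw [this]; exact norm_add_le _ _
    have h3 : ‖J (y - x)‖ ≤ M * δ := (J.le_opNorm _).trans (mul_le_mul_of_nonneg_left hd.le hM0)
    linarith
  have hlow : ∀ y : EuclideanSpace 𝕜 (Fin k), ‖y‖ = 1 → (1 - δ) * m - δ * M ≤ ‖J y‖ := by
    intro y hy
    obtain ⟨x, hx, hd⟩ := hnear y hy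
    have h1 := (abs_le.1 (hJ x hx)).1
    have h2 : ‖J x‖ ≤ ‖J y‖ + ‖J (y - x)‖ := by
      have : J x = J y - J (y - x) := by rw [← map_sub]; simp
      rw [this]; exact norm_sub_le _ _
    have h3 : ‖J (y - x)‖ ≤ M * δ := (J.le_opNorm _).trans (mul_le_mul_of_nonneg_left hd.le hM0)
    linarith
  have hMle : M ≤ (1 + δ) * m + δ * M := by
    refine ContinuousLinearMap.opNorm_le_bound _ (by positivity) fun x => ?_
    by_cases hx : x = 0
    · simp [hx]
    have hxn : 0 < ‖x‖ := norm_pos_iff.2 hx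
    have hy : ‖((‖x‖⁻¹ : ℝ) : 𝕜) • x‖ = 1 := by
      simp only [norm_smul, RCLike.norm_ofReal, abs_inv, abs_norm]
      field_simp
    have hJy : ‖J x‖ = ‖x‖ * ‖J (((‖x‖⁻¹ : ℝ) : 𝕜) • x)‖ := by
      simp only [map_smul, norm_smul, RCLike.norm_ofReal, abs_inv, abs_norm]
      field_simp
    rw [hJy, mul_comm]
    exact mul_le_mul_of_nonneg_right (hup _ hy) hxn.le
  have hM1 : M ≤ (1 + ε) * m := by
    have h1 : (1 - δ) * M ≤ (1 + δ) * m := by linarith
    have h2 : (1 + δ) * m ≤ (1 - δ) * ((1 + ε) * m) := by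
      have : 0 ≤ (1 - δ) * (1 + ε) - (1 + δ) := by
        rw [hδ]; nlinarith
      nlinarith
    have h3 : 0 < 1 - δ := by rw [hδ]; linarith
    exact le_of_mul_le_mul_left (h1.trans h2) h3
  intro x
  by_cases hx : x = 0
  · simp [hx]
  have hxn : 0 < ‖x‖ := norm_pos_iff.2 hx
  set y : EuclideanSpace 𝕜 (Fin k) := ((‖x‖⁻¹ : ℝ) : 𝕜) • x
  have hy : ‖y‖ = 1 := by
    simp only [y, norm_smul, RCLike.norm_ofReal, abs_inv, abs_norm]
    field_simp
  have hJy : ‖J x‖ = ‖x‖ * ‖J y‖ := by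
    simp only [y, map_smul, norm_smul, RCLike.norm_ofReal, abs_inv, abs_norm]
    field_simp
  constructor
  · have h1 := hlow y hy
    have h2 : (1 - ε) * m ≤ ‖J y‖ := by
      have : δ * M ≤ δ * ((1 + ε) * m) := by gcongr
      have h4 : 0 ≤ ((1 - δ) - δ * (1 + ε) - (1 - ε)) * m := by
        have : 0 ≤ (1 - δ) - δ * (1 + ε) - (1 - ε) := by rw [hδ]; nlinarith
        positivity
      nlinarith
    rw [hJy]
    nlinarith
  · exact (J.le_opNorm x).trans (by gcongr)

end RandomOperator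

end Pool.Agent.Lib.MP_02a0e4_an
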