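import Mathlib

/-!
Averages over random signs, and a Khintchine inequality `ℓ₂ ≤ 2 E|∑ ± v_i|`.
-/

open Filter
open scoped Topology NNReal ENNReal Real

namespace Pool.Agent.Lib.MP_02a0e4_an

/-- average of `g (c + ∑ ± v_i)` over all choices of signs -/
noncomputable def avgS {V : Type*} [AddCommGroup V] : List V → (V → ℝ) → V → ℝ
  | [], g, c => g c
  | v :: l, g, c => (avgS l g (c + v) + avgS l g (c - v)) / 2

section Basic
variable {V : Type*} [AddCommGroup V]

lemma avgS_mono (l : List V) {g h : V → ℝ} (hgh : ∀ x, g x ≤ h x) (c : V) :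
    avgS l g c ≤ avgS l h c := by
  induction l generalizing c with
  | nil => exact hgh c
  | cons v l ih =>
    simp only [avgS]
    linarith [ih (c + v), ih (c - v)]

lemma avgS_add (l : List V) (g h : V → ℝ) (c : V) :
    avgS l (fun x => g x + h x) c = avgS l g c + avgS l h c := by
  induction l generalizing c with
  | nil => rfl
  | cons v l ih => simp only [avgS, ih]; ring

lemma avgS_mul (l : List V) (g : V → ℝ) (r : ℝ) (c : V) :
    avgS l (fun x => r * g x) c = r * avgS l g c := by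
  induction l generalizing c with
  | nil => rfl
  | cons v l ih => simp only [avgS, ih]; ring

lemma avgS_const (l : List V) (r : ℝ) (c : V) :
    avgS l (fun _ => r) c = r := by
  induction l generalizing c with
  | nil => rfl
  | cons v l ih => simp only [avgS, ih]; ring

lemma avgS_sum {ι : Type*} (s : Finset ι) (l : List V) (g : ι → V → ℝ) (c : V) :
    avgS l (fun x => ∑ i ∈ s, g i x) c = ∑ i ∈ s, avgS l (g i) c := by
  classical
  induction s using Finset.induction_on with
  | empty => simpa using avgS_const l 0 c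
  | insert a s ha ih =>
    simp only [Finset.sum_insert ha]
    rw [avgS_add, ih]

lemma avgS_map {W : Type*} [AddCommGroup W] (T : V →+ W) (l : List V) (g : W → ℝ) (c : V) :
    avgS (l.map T) g (T c) = avgS l (fun x => g (T x)) c := by
  induction l generalizing c with
  | nil => rfl
  | cons v l ih =>
    simp only [avgS, List.map_cons]
    rw [← ih (c + v), ← ih (c - v), map_add, map_sub]

lemma avgS_nonneg (l : List V) {g : V → ℝ} (hg : ∀ x, 0 ≤ g x) (c : V) : 0 ≤ avgS l g c := by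
  have := avgS_mono l hg c
  rwa [avgS_const] at this

/-- Convexity: the norm of the averaged vector is at most the average of the norms. -/
lemma norm_avgS_le {ι : Type*} [Fintype ι] {F : Type*} [NormedAddCommGroup F] [NormedSpace ℝ F]
    (l : List V) (φ : (ι → ℝ) →ₗ[ℝ] F) (g : ι → V → ℝ) (c : V) :
    ‖φ (fun i => avgS l (g i) c)‖ ≤ avgS l (fun x => ‖φ (fun i => g i x)‖) c := by
  induction l generalizing c with
  | nil => exact le_rfl
  | cons v l ih =>
    simp only [avgS]
    have e : (fun i => (avgS l (g i) (c + v) + avgS l (g i) (c - v)) / 2) =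
        (1/2 : ℝ) • (fun i => avgS l (g i) (c + v)) + (1/2 : ℝ) • (fun i => avgS l (g i) (c - v)) := by
      ext i; simp; ring
    rw [e, map_add, map_smul, map_smul]
    refine (norm_add_le _ _).trans ?_
    rw [norm_smul, norm_smul]
    have : ‖(1/2 : ℝ)‖ = 1/2 := by norm_num
    rw [this]
    linarith [ih (c + v), ih (c - v)]

end Basic

section Inner
variable {V : Type*} [NormedAddCommGroup V] [InnerProductSpace ℝ V]

lemma avgS_sq (l : List V) (c : V) :
    avgS l (fun x => ‖x‖^2) c = ‖c‖^2 + (l.map (fun v => ‖v‖^2)).sum := by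
  induction l generalizing c with
  | nil => simp [avgS]
  | cons v l ih =>
    simp only [avgS, ih, List.map_cons, List.sum_cons]
    have := parallelogram_law_with_norm ℝ c v
    nlinarith

lemma sum_sq_nonneg (l : List V) : 0 ≤ (l.map (fun v => ‖v‖^2)).sum := by
  induction l with
  | nil => simp
  | cons v l ih => simp only [List.map_cons, List.sum_cons]; positivity

lemma avgS_four (l : List V) (c : V) :
    avgS l (fun x => ‖x‖^4) c ≤ ‖c‖^4 + 6 * ‖c‖^2 * (l.map (fun v => ‖v‖^2)).sum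
      + 3 * ((l.map (fun v => ‖v‖^2)).sum)^2 := by
  induction l generalizing c with
  | nil => simp [avgS]
  | cons v l ih =>
    simp only [avgS, List.map_cons, List.sum_cons]
    set σ := (l.map (fun v => ‖v‖^2)).sum with hσ
    have hσ0 : 0 ≤ σ := sum_sq_nonneg l
    have h1 := ih (c + v)
    have h2 := ih (c - v)
    have e1 : ‖c + v‖^2 = ‖c‖^2 + 2 * inner ℝ c v + ‖v‖^2 := norm_add_sq_real c v
    have e2 : ‖c - v‖^2 = ‖c‖^2 - 2 * inner ℝ c v + ‖v‖^2 := norm_sub_sq_real c v
    have e3 : ‖c + v‖^4 = (‖c‖^2 + 2 * inner ℝ c v + ‖v‖^2)^2 := by rw [← e1]; ring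
    have e4 : ‖c - v‖^4 = (‖c‖^2 - 2 * inner ℝ c v + ‖v‖^2)^2 := by rw [← e2]; ring
    have h3 : (inner ℝ c v)^2 ≤ ‖c‖^2 * ‖v‖^2 := by
      have := abs_real_inner_le_norm c v
      rw [← mul_pow, ← sq_abs (inner ℝ c v)]
      gcongr
    rw [e3, e1] at h1
    rw [e4, e2] at h2
    nlinarith [mul_nonneg hσ0 (sq_nonneg ‖v‖), sq_nonneg (‖v‖^2), sq_nonneg ‖v‖, sq_nonneg ‖c‖]

/-- Khintchine: the `ℓ₂` norm is at most twice the average norm. -/
lemma khintchine (l : List V) :
    Real.sqrt ((l.map (fun v => ‖v‖^2)).sum) ≤ 2 * avgS l (fun x => ‖x‖) 0 := by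
  set S := (l.map (fun v => ‖v‖^2)).sum with hS
  have hS0 : 0 ≤ S := sum_sq_nonneg l
  have h0 : 0 ≤ avgS l (fun x => ‖x‖) 0 := avgS_nonneg l (fun x => norm_nonneg x) 0
  rcases eq_or_lt_of_le hS0 with h | h
  · rw [← h]; simpa using h0
  set σ := Real.sqrt S with hσ
  have hσpos : 0 < σ := Real.sqrt_pos.2 h
  have hσ2 : σ^2 = S := Real.sq_sqrt hS0
  -- pointwise inequality
  have hpt : ∀ x : V, (3/4) / σ * ‖x‖^2 + (-(1/16) / σ^3) * ‖x‖^4 ≤ ‖x‖ := by
    intro x
    set t := ‖x‖ / σ with ht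
    have ht0 : 0 ≤ t := by positivity
    have hx : ‖x‖ = t * σ := by rw [ht]; field_simp
    rw [hx]
    have h1 : (3/4) / σ * (t * σ)^2 + (-(1/16) / σ^3) * (t * σ)^4 = σ * ((3/4) * t^2 - (1/16) * t^4) := by
      field_simp
      ring
    rw [h1]
    have h2 : (3/4) * t^2 - (1/16) * t^4 ≤ t := by
      have : t - ((3/4) * t^2 - (1/16) * t^4) = t * ((t-2)^2 * (t+4)) / 16 := by ring
      have h3 : 0 ≤ t * ((t-2)^2 * (t+4)) / 16 := by positivity
      linarith
    nlinarith
  have h1 := avgS_mono l hpt 0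
  rw [avgS_add, avgS_mul, avgS_mul, avgS_sq] at h1
  have h4 := avgS_four l (0 : V)
  simp only [norm_zero] at h1 h4
  rw [← hS] at h1 h4
  have h5 : avgS l (fun x => ‖x‖^4) 0 ≤ 3 * σ^4 := by
    have : σ^4 = S^2 := by rw [← hσ2]; ring
    rw [this]; nlinarith
  have h6 : (-(1/16) / σ^3) * (3 * σ^4) ≤ (-(1/16) / σ^3) * avgS l (fun x => ‖x‖^4) 0 := by
    have : (-(1/16) / σ^3) ≤ 0 := by
      apply div_nonpos_of_nonpos_of_nonneg (by norm_num) (by positivity)
    nlinarith
  have h7 : (3/4) / σ * S = (3/4) * σ := by rw [← hσ2]; field_simp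
  have h8 : (-(1/16) / σ^3) * (3 * σ^4) = -(3/16) * σ := by field_simp; 
  have h9 : (3/4) / σ * (0^2 + S) = (3/4) * σ := by rw [← h7]; ring
  rw [h9] at h1
  linarith

lemma avgS_norm_le (l : List V) :
    avgS l (fun x => ‖x‖) 0 ≤ Real.sqrt ((l.map (fun v => ‖v‖^2)).sum) := by
  set S := (l.map (fun v => ‖v‖^2)).sum with hS
  have hS0 : 0 ≤ S := sum_sq_nonneg l
  have h0 : 0 ≤ avgS l (fun x => ‖x‖) 0 := avgS_nonneg l (fun x => norm_nonneg x) 0
  set m := avgS l (fun x => ‖x‖) 0 with hm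
  have h1 : ∀ x : V, 2 * m * ‖x‖ + (- m^2) ≤ ‖x‖^2 := fun x => by nlinarith [sq_nonneg (‖x‖ - m)]
  have h2 := avgS_mono l h1 0
  rw [avgS_add, avgS_mul, avgS_const, avgS_sq] at h2
  simp only [norm_zero] at h2
  apply Real.le_sqrt_of_sq_le
  nlinarith

end Inner

end Pool.Agent.Lib.MP_02a0e4_an
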